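import Pool.Agent.Q43.EX.Shrink

set_option autoImplicit false

namespace Pool.Agent.Q43.EX

open MeasureTheory Filter Topology
open scoped ENNReal NNReal

variable {b : ℕ} {G : ℕ → Set ℤ} {Q w : ℕ → ℕ}

open Classical in
/-- the output point -/
noncomputable def psi (b : ℕ) (G : ℕ → Set ℤ) (Q w : ℕ → ℕ) (s0 : St) (x : ℝ) : ℝ :=
  if h : ∃ z : ℝ, ∀ j, ⌊z * (b : ℝ) ^ pp b G Q (orb b G Q w s0 x j) x⌋ =
        ⌊bt b (orb b G Q w s0 x j) x * (b : ℝ) ^ pp b G Q (orb b G Q w s0 x j) x⌋ then h.choose else 0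

lemma psi_spec (hb : 2 ≤ b) (hQ : ∀ L, L < Q L) (hw : ∀ p, 1 ≤ w p) {s0 : St} {x : ℝ}
    (hx : Good b G Q w s0 x) (j : ℕ) {q : ℕ} (hq : q ≤ pp b G Q (orb b G Q w s0 x j) x) :
    ⌊psi b G Q w s0 x * (b : ℝ) ^ q⌋ = ⌊bt b (orb b G Q w s0 x j) x * (b : ℝ) ^ q⌋ := by
  have h := exists_psi hb hQ hw hx
  have h2 : ⌊psi b G Q w s0 x * (b : ℝ) ^ pp b G Q (orb b G Q w s0 x j) x⌋ =
        ⌊bt b (orb b G Q w s0 x j) x * (b : ℝ) ^ pp b G Q (orb b G Q w s0 x j) x⌋ := by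
    unfold psi
    rw [dif_pos h]
    exact h.choose_spec j
  exact floor_down hb hq h2

lemma L_lt (hQ : ∀ L, L < Q L) {s0 : St} {x : ℝ} (hx : Good b G Q w s0 x) (j : ℕ) :
    (orb b G Q w s0 x j).L < pp b G Q (orb b G Q w s0 x j) x :=
  (hQ _).trans_le (pp_spec (hx j)).1

lemma L_succ {s0 : St} {x : ℝ} (j : ℕ) : (orb b G Q w s0 x (j + 1)).L =
    pp b G Q (orb b G Q w s0 x j) x + w (pp b G Q (orb b G Q w s0 x j) x) := rfl

lemma le_L (hQ : ∀ L, L < Q L) {s0 : St} {x : ℝ} (hx : Good b G Q w s0 x) (j : ℕ) :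
    j ≤ (orb b G Q w s0 x j).L := by
  induction j with
  | zero => omega
  | succ j ih =>
    rw [L_succ]
    have := L_lt hQ hx j
    omega

/-- the success property of the output point -/
lemma psi_mem (hb : 2 ≤ b) (hQ : ∀ L, L < Q L) (hw : ∀ p, 1 ≤ w p) {s0 : St} {x : ℝ}
    (hx : Good b G Q w s0 x) :
    ∃ᶠ p in atTop, ⌊psi b G Q w s0 x * (b : ℝ) ^ p⌋ ∈ G p ∧
      Int.fract (psi b G Q w s0 x * (b : ℝ) ^ p) < ((b : ℝ) ^ w p)⁻¹ := by
  rw [frequently_atTop]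
  intro a
  set s := orb b G Q w s0 x a with hs
  set p := pp b G Q s x with hp
  have hap : a ≤ p := (le_L hQ hx a).trans (L_lt hQ hx a).le
  refine ⟨p, hap, ?_, ?_⟩
  · rw [psi_spec hb hQ hw hx a le_rfl]
    exact (pp_spec (hx a)).2
  · have h1 := psi_spec hb hQ hw hx (a + 1) (q := (orb b G Q w s0 x (a + 1)).L)
      (L_lt hQ hx (a + 1)).le
    rw [floor_bt_L hb] at h1
    have h2 : (orb b G Q w s0 x (a + 1)).m = ⌊bt b s x * (b : ℝ) ^ p⌋ * (b : ℤ) ^ w p := rfl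
    have h3 : (orb b G Q w s0 x (a + 1)).L = p + w p := rfl
    rw [h2, h3, ← psi_spec hb hQ hw hx a le_rfl] at h1
    have h4 := Int.lt_floor_add_one (psi b G Q w s0 x * (b : ℝ) ^ (p + w p))
    rw [h1] at h4
    push_cast at h4
    have hb0 := bpos hb
    have h5 : (0 : ℝ) < (b : ℝ) ^ w p := by positivity
    rw [pow_add, ← mul_assoc] at h4
    unfold Int.fract
    rw [← one_div, lt_div_iff₀ h5, sub_mul]
    linarith

/-- two inputs whose outputs are in the same cell of level `k` have the same states up to `k` -/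
lemma same_orb (hb : 2 ≤ b) (hQ : ∀ L, L < Q L) (hw : ∀ p, 1 ≤ w p) {s0 : St} {x y : ℝ}
    (hx : Good b G Q w s0 x) (hy : Good b G Q w s0 y)
    (h0 : ⌊x * (b : ℝ) ^ s0.n⌋ = ⌊y * (b : ℝ) ^ s0.n⌋) {k : ℕ}
    (h : ⌊psi b G Q w s0 x * (b : ℝ) ^ k⌋ = ⌊psi b G Q w s0 y * (b : ℝ) ^ k⌋) :
    ∀ j, (orb b G Q w s0 x j).L ≤ k → orb b G Q w s0 y j = orb b G Q w s0 x j ∧
      ⌊x * (b : ℝ) ^ (orb b G Q w s0 x j).n⌋ = ⌊y * (b : ℝ) ^ (orb b G Q w s0 x j).n⌋ := by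
  intro j
  induction j with
  | zero => intro _; exact ⟨rfl, h0⟩
  | succ j ih =>
    intro hk
    rw [L_succ] at hk
    have hLp := L_lt hQ hx j
    obtain ⟨e1, e2⟩ := ih (by omega)
    set s := orb b G Q w s0 x j with hs
    have hA : ∀ q, q ≤ pp b G Q s x → ⌊psi b G Q w s0 x * (b : ℝ) ^ q⌋ = ⌊bt b s x * (b : ℝ) ^ q⌋ :=
      fun q hq => psi_spec hb hQ hw hx j hq
    have hB : ∀ q, q ≤ pp b G Q s y → ⌊psi b G Q w s0 y * (b : ℝ) ^ q⌋ = ⌊bt b s y * (b : ℝ) ^ q⌋ := by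
      intro q hq
      have := psi_spec hb hQ hw hy j (q := q) (by rw [e1]; exact hq)
      rw [this, e1]
    have hC : ∀ q, q ≤ k → ⌊psi b G Q w s0 x * (b : ℝ) ^ q⌋ = ⌊psi b G Q w s0 y * (b : ℝ) ^ q⌋ :=
      fun q hq => floor_down hb hq h
    have hsx := pp_spec (hx j)
    have hsy := pp_spec (hy j)
    rw [e1] at hsy
    rw [← hs] at hsx
    have hpp : pp b G Q s y = pp b G Q s x := by
      refine le_antisymm ?_ ?_
      · by_contra hlt
        push Not at hlt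
        apply absurd (pp_le (b := b) (G := G) (Q := Q) (s := s) (x := y) (p := pp b G Q s x) ⟨hsx.1, ?_⟩)
        · omega
        · rw [← hB _ hlt.le, ← hC _ (by omega), hA _ le_rfl]
          exact hsx.2
      · by_contra hlt
        push Not at hlt
        apply absurd (pp_le (b := b) (G := G) (Q := Q) (s := s) (x := x) (p := pp b G Q s y) ⟨hsy.1, ?_⟩)
        · omega
        · rw [← hA _ hlt.le, hC _ (by omega), hB _ le_rfl]
          exact hsy.2
    have hfl : ⌊bt b s y * (b : ℝ) ^ pp b G Q s x⌋ = ⌊bt b s x * (b : ℝ) ^ pp b G Q s x⌋ := by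
      rw [← hA _ le_rfl, hC _ (by omega), ← hpp, hB _ le_rfl]
    have hn : nxt b G Q w s y = nxt b G Q w s x := by
      unfold nxt
      rw [hpp, hfl]
    refine ⟨?_, ?_⟩
    · show nxt b G Q w (orb b G Q w s0 y j) y = nxt b G Q w s x
      rw [e1, hn]
    · show ⌊x * (b : ℝ) ^ (s.n + (pp b G Q s x - s.L))⌋ = ⌊y * (b : ℝ) ^ (s.n + (pp b G Q s x - s.L))⌋
      rw [floor_in, floor_in, e2]
      rw [floor_bt hb s x hLp.le, floor_bt hb s y hLp.le] at hfl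
      have := add_left_cancel hfl
      rw [this]

/-- the inputs agree up to a digit close to `k` -/
lemma same_in (hb : 2 ≤ b) (hQ : ∀ L, L < Q L) (hw : ∀ p, 1 ≤ w p) {s0 : St} {x y : ℝ}
    (hx : Good b G Q w s0 x) (hy : Good b G Q w s0 y)
    (h0 : ⌊x * (b : ℝ) ^ s0.n⌋ = ⌊y * (b : ℝ) ^ s0.n⌋) {k : ℕ}
    (h : ⌊psi b G Q w s0 x * (b : ℝ) ^ k⌋ = ⌊psi b G Q w s0 y * (b : ℝ) ^ k⌋) (j : ℕ)
    (hj : (orb b G Q w s0 x j).L ≤ k) :
    ⌊x * (b : ℝ) ^ ((orb b G Q w s0 x j).n +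
        (min k (pp b G Q (orb b G Q w s0 x j) x) - (orb b G Q w s0 x j).L))⌋ =
      ⌊y * (b : ℝ) ^ ((orb b G Q w s0 x j).n +
        (min k (pp b G Q (orb b G Q w s0 x j) x) - (orb b G Q w s0 x j).L))⌋ := by
  obtain ⟨e1, e2⟩ := same_orb hb hQ hw hx hy h0 h j hj
  have hLp := L_lt hQ hx j
  set s := orb b G Q w s0 x j with hs
  have hA : ∀ q, q ≤ pp b G Q s x → ⌊psi b G Q w s0 x * (b : ℝ) ^ q⌋ = ⌊bt b s x * (b : ℝ) ^ q⌋ :=
    fun q hq => psi_spec hb hQ hw hx j hq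
  have hB : ∀ q, q ≤ pp b G Q s y → ⌊psi b G Q w s0 y * (b : ℝ) ^ q⌋ = ⌊bt b s y * (b : ℝ) ^ q⌋ := by
    intro q hq
    have := psi_spec hb hQ hw hy j (q := q) (by rw [e1]; exact hq)
    rw [this, e1]
  have hC : ∀ q, q ≤ k → ⌊psi b G Q w s0 x * (b : ℝ) ^ q⌋ = ⌊psi b G Q w s0 y * (b : ℝ) ^ q⌋ :=
    fun q hq => floor_down hb hq h
  have hsy := pp_spec (hy j)
  rw [e1] at hsy
  set r := min k (pp b G Q s x) with hr
  have hrk : r ≤ k := min_le_left _ _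
  have hrp : r ≤ pp b G Q s x := min_le_right _ _
  have hry : r ≤ pp b G Q s y := by
    by_contra hlt
    push Not at hlt
    apply absurd (pp_le (b := b) (G := G) (Q := Q) (s := s) (x := x) (p := pp b G Q s y) ⟨hsy.1, ?_⟩)
    · omega
    · rw [← hA _ (by omega), hC _ (by omega), hB _ le_rfl]
      exact hsy.2
  have hLr : s.L ≤ r := le_min hj hLp.le
  have hfl : ⌊bt b s y * (b : ℝ) ^ r⌋ = ⌊bt b s x * (b : ℝ) ^ r⌋ := by
    rw [← hA _ hrp, hC _ hrk, hB _ hry]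
  rw [floor_in, floor_in, e2]
  rw [floor_bt hb s x hLr, floor_bt hb s y hLr] at hfl
  rw [add_left_cancel hfl]

/-- real numbers with the same floor at level `N` -/
lemma dist_le (hb : 2 ≤ b) {x y : ℝ} {N : ℕ} (h : ⌊x * (b : ℝ) ^ N⌋ = ⌊y * (b : ℝ) ^ N⌋) :
    |x - y| ≤ ((b : ℝ) ^ N)⁻¹ := by
  have hb0 := pow_pos (bpos hb) N
  have h1 := Int.floor_le (x * (b : ℝ) ^ N)
  have h2 := Int.lt_floor_add_one (x * (b : ℝ) ^ N)
  have h3 := Int.floor_le (y * (b : ℝ) ^ N)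
  have h4 := Int.lt_floor_add_one (y * (b : ℝ) ^ N)
  rw [h] at h1 h2
  rw [← one_div, le_div_iff₀ hb0]
  rw [show |x - y| * (b : ℝ) ^ N = |(x - y) * (b : ℝ) ^ N| by rw [abs_mul, abs_of_pos hb0], sub_mul, abs_le]
  constructor <;> linarith

/-- the numbers of copied and of forced digits -/
lemma count (hQ : ∀ L, L < Q L) {ε δ : ℝ} (hε : 0 < ε) (hδ : 0 < δ) (hδ1 : δ < 1)
    (hQδ : ∀ L : ℕ, (L : ℝ) ≤ δ * Q L) (hw1 : ∀ p : ℕ, ε * p ≤ w p) (hw2 : ∀ p : ℕ, (w p : ℝ) ≤ ε * p + 1)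
    {s0 : St} (hn0 : s0.n = 0) {x : ℝ} (hx : Good b G Q w s0 x) (k : ℕ) (hk : s0.L ≤ k) :
    ∃ j, (orb b G Q w s0 x j).L ≤ k ∧
      (1 - δ) / (1 + ε) * k - (s0.L + 1) ≤ (((orb b G Q w s0 x j).n +
        (min k (pp b G Q (orb b G Q w s0 x j) x) - (orb b G Q w s0 x j).L) : ℕ) : ℝ) := by
  classical
  -- the number of forced digits
  have hD : ∀ j, (((orb b G Q w s0 x j).L : ℝ) - (orb b G Q w s0 x j).n) ≤
      (ε + δ) / (1 + ε) * (orb b G Q w s0 x j).L + (s0.L + 1) := by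
    intro j
    cases j with
    | zero =>
      show ((s0.L : ℝ) - s0.n) ≤ (ε + δ) / (1 + ε) * s0.L + (s0.L + 1)
      rw [hn0]
      push_cast
      have : 0 ≤ (ε + δ) / (1 + ε) * (s0.L : ℝ) := by positivity
      linarith
    | succ j =>
      set s := orb b G Q w s0 x j with hs
      set p := pp b G Q s x with hp
      have hLp : s.L < p := L_lt hQ hx j
      have e1 : (orb b G Q w s0 x (j + 1)).L = p + w p := rfl
      have e2 : (orb b G Q w s0 x (j + 1)).n = s.n + (p - s.L) := rfl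
      rw [e1, e2]
      push_cast [Nat.cast_sub hLp.le]
      have h1 := hQδ s.L
      have h2 : (Q s.L : ℝ) ≤ p := by exact_mod_cast (pp_spec (hx j)).1
      have h3 : (s.L : ℝ) ≤ δ * p := h1.trans (by gcongr)
      have h4 := hw1 p
      have h5 := hw2 p
      have h6 : (0 : ℝ) ≤ s.n := Nat.cast_nonneg _
      have h7 : (ε + δ) * p ≤ (ε + δ) / (1 + ε) * (p + w p) := by
        rw [div_mul_eq_mul_div, le_div_iff₀ (by positivity), mul_assoc]
        gcongr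
        nlinarith
      have h8 : (0 : ℝ) ≤ s0.L := Nat.cast_nonneg _
      linarith
  -- the last state before `k`
  have hex : ∃ j, k < (orb b G Q w s0 x j).L := ⟨k + 1, by have := le_L hQ hx (k + 1); omega⟩
  have hj0 : Nat.find hex ≠ 0 := by
    intro h
    have := Nat.find_spec hex
    rw [h] at this
    exact absurd hk (not_le.2 this)
  obtain ⟨j, hj⟩ := Nat.exists_eq_succ_of_ne_zero hj0
  have hjk : (orb b G Q w s0 x j).L ≤ k := by
    have := Nat.find_min hex (m := j) (by omega)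
    push Not at this
    exact this
  have hjk2 : k < (orb b G Q w s0 x (j + 1)).L := by
    have := Nat.find_spec hex
    rw [hj] at this
    exact this
  refine ⟨j, hjk, ?_⟩
  have hDj := hD j
  set s := orb b G Q w s0 x j with hs
  set p := pp b G Q s x with hp
  have hLp : s.L < p := L_lt hQ hx j
  have e1 : (orb b G Q w s0 x (j + 1)).L = p + w p := rfl
  rw [e1] at hjk2
  have hLm : s.L ≤ min k p := le_min hjk hLp.le
  have hL0 : (0 : ℝ) ≤ s0.L := Nat.cast_nonneg _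
  have hsL : (s.L : ℝ) ≤ k := by exact_mod_cast hjk
  have hkk : (0 : ℝ) ≤ k := Nat.cast_nonneg _
  push_cast [Nat.cast_sub hLm]
  rcases le_total k p with hkp | hkp
  · rw [min_eq_left (show (k : ℝ) ≤ p by exact_mod_cast hkp)]
    have h1 : (ε + δ) / (1 + ε) * (s.L : ℝ) ≤ (ε + δ) / (1 + ε) * k := by gcongr
    have h2 : (1 - δ) / (1 + ε) * (k : ℝ) = k - (ε + δ) / (1 + ε) * k := by
      field_simp
      ring
    linarith
  · rw [min_eq_right (show (p : ℝ) ≤ k by exact_mod_cast hkp)]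
    have h1 := hQδ s.L
    have h2 : (Q s.L : ℝ) ≤ p := by exact_mod_cast (pp_spec (hx j)).1
    have h3 : (s.L : ℝ) ≤ δ * p := h1.trans (by gcongr)
    have h5 := hw2 p
    have h6 : (k : ℝ) + 1 ≤ p + w p := by exact_mod_cast hjk2
    have h7 : (1 - δ) / (1 + ε) * (k : ℝ) ≤ (1 - δ) * p := by
      rw [div_mul_eq_mul_div, div_le_iff₀ (by positivity), mul_assoc]
      have : (k : ℝ) ≤ p * (1 + ε) := by linarith
      have h8 : 0 < 1 - δ := by linarith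
      gcongr
    have h9 : (0 : ℝ) ≤ s.n := Nat.cast_nonneg _
    linarith

end Pool.Agent.Q43.EX
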