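import Pool.Agent.Q43.EX.Dim

set_option autoImplicit false

namespace Pool.Agent.Q43.EX

open MeasureTheory Filter Topology
open scoped ENNReal NNReal

/-- a map defined on a set of positive outer measure such that the preimages of the cells of level `k`
have diameter at most `b ^ (c - s k)` has an image of dimension at least `s` -/
theorem dim_of_cells {b : ℕ} (hb : 2 ≤ b) {X : Set ℝ} (hX : volume X ≠ 0) {f : ℝ → ℝ} {k0 : ℕ}
    {s c : ℝ} (hs : 0 < s)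
    (h : ∀ k : ℕ, k0 ≤ k → ∀ x ∈ X, ∀ y ∈ X, ⌊f x * (b : ℝ) ^ k⌋ = ⌊f y * (b : ℝ) ^ k⌋ →
      |x - y| ≤ (b : ℝ) ^ (c - s * k)) :
    ENNReal.ofReal s ≤ dimH (f '' X) := by
  have hb0 := bpos hb
  have hb1 : (1 : ℝ) < b := by
    have : (2 : ℝ) ≤ b := by exact_mod_cast hb
    linarith
  -- a preimage of three cells
  have h3 : ∀ k : ℕ, k0 ≤ k → ∀ z0 : ℝ, volume {x ∈ X | |f x - z0| ≤ ((b : ℝ) ^ k)⁻¹} ≤
      3 * ENNReal.ofReal ((b : ℝ) ^ (c - s * k)) := by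
    intro k hk z0
    have hpk : (0 : ℝ) < (b : ℝ) ^ k := by positivity
    have hcell : ∀ a : ℤ, volume {x ∈ X | ⌊f x * (b : ℝ) ^ k⌋ = a} ≤
        ENNReal.ofReal ((b : ℝ) ^ (c - s * k)) := by
      intro a
      refine (Real.volume_le_diam _).trans (Metric.ediam_le fun x hx y hy => ?_)
      rw [edist_dist, Real.dist_eq]
      exact ENNReal.ofReal_le_ofReal (h k hk x hx.1 y hy.1 (hx.2.trans hy.2.symm))
    have hsub : {x ∈ X | |f x - z0| ≤ ((b : ℝ) ^ k)⁻¹} ⊆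
        {x ∈ X | ⌊f x * (b : ℝ) ^ k⌋ = ⌊z0 * (b : ℝ) ^ k⌋ - 1} ∪
        ({x ∈ X | ⌊f x * (b : ℝ) ^ k⌋ = ⌊z0 * (b : ℝ) ^ k⌋} ∪
          {x ∈ X | ⌊f x * (b : ℝ) ^ k⌋ = ⌊z0 * (b : ℝ) ^ k⌋ + 1}) := by
      intro x hx
      obtain ⟨hxX, hd⟩ := hx
      have h1 : |f x * (b : ℝ) ^ k - z0 * (b : ℝ) ^ k| ≤ 1 := by
        rw [← sub_mul, abs_mul, abs_of_pos hpk]
        calc _ ≤ ((b : ℝ) ^ k)⁻¹ * (b : ℝ) ^ k := by gcongr
          _ = 1 := inv_mul_cancel₀ hpk.ne'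
      rw [abs_le] at h1
      have e1 := Int.floor_le (f x * (b : ℝ) ^ k)
      have e2 := Int.lt_floor_add_one (f x * (b : ℝ) ^ k)
      have e3 := Int.floor_le (z0 * (b : ℝ) ^ k)
      have e4 := Int.lt_floor_add_one (z0 * (b : ℝ) ^ k)
      have f1 : ⌊f x * (b : ℝ) ^ k⌋ < ⌊z0 * (b : ℝ) ^ k⌋ + 2 := by
        have : (⌊f x * (b : ℝ) ^ k⌋ : ℝ) < ⌊z0 * (b : ℝ) ^ k⌋ + 2 := by linarith
        exact_mod_cast this
      have f2 : ⌊z0 * (b : ℝ) ^ k⌋ - 2 < ⌊f x * (b : ℝ) ^ k⌋ := by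
        have : (⌊z0 * (b : ℝ) ^ k⌋ : ℝ) - 2 < ⌊f x * (b : ℝ) ^ k⌋ := by linarith
        exact_mod_cast this
      rcases (show ⌊f x * (b : ℝ) ^ k⌋ = ⌊z0 * (b : ℝ) ^ k⌋ - 1 ∨
        ⌊f x * (b : ℝ) ^ k⌋ = ⌊z0 * (b : ℝ) ^ k⌋ ∨
        ⌊f x * (b : ℝ) ^ k⌋ = ⌊z0 * (b : ℝ) ^ k⌋ + 1 by omega) with h | h | h
      · exact Or.inl ⟨hxX, h⟩
      · exact Or.inr (Or.inl ⟨hxX, h⟩)
      · exact Or.inr (Or.inr ⟨hxX, h⟩)
    calc _ ≤ _ := measure_mono hsub
      _ ≤ _ := (measure_union_le _ _).trans (add_le_add (hcell _)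
        ((measure_union_le _ _).trans (add_le_add (hcell _) (hcell _))))
      _ = _ := by ring
  -- sets of small diameter
  set C : ℝ≥0∞ := 3 * ENNReal.ofReal ((b : ℝ) ^ (c + s)) with hC
  have hC0 : C ≠ ⊤ := ENNReal.mul_ne_top (by norm_num) ENNReal.ofReal_ne_top
  have hvol : ∀ T : Set ℝ, T.Nonempty → Metric.ediam T ≤ ENNReal.ofReal (((b : ℝ) ^ (k0 + 1))⁻¹) →
      volume {x ∈ X | f x ∈ T} ≤ C * Metric.ediam T ^ s := by
    intro T hT hdT
    obtain ⟨z0, hz0⟩ := hT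
    have hfin : Metric.ediam T ≠ ⊤ := ne_top_of_le_ne_top ENNReal.ofReal_ne_top hdT
    set D := (Metric.ediam T).toReal with hD
    have hDe : Metric.ediam T = ENNReal.ofReal D := (ENNReal.ofReal_toReal hfin).symm
    have hD0 : 0 ≤ D := ENNReal.toReal_nonneg
    have hD1 : D ≤ ((b : ℝ) ^ (k0 + 1))⁻¹ := by
      rw [hDe, ENNReal.ofReal_le_ofReal_iff (by positivity)] at hdT
      exact hdT
    have hdist : ∀ z ∈ T, |z - z0| ≤ D := by
      intro z hz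
      have := Metric.edist_le_ediam_of_mem hz hz0
      rw [hDe, edist_dist, Real.dist_eq, ENNReal.ofReal_le_ofReal_iff hD0] at this
      exact this
    have hsub : ∀ k : ℕ, D ≤ ((b : ℝ) ^ k)⁻¹ →
        {x ∈ X | f x ∈ T} ⊆ {x ∈ X | |f x - z0| ≤ ((b : ℝ) ^ k)⁻¹} :=
      fun k hk x hx => ⟨hx.1, (hdist _ hx.2).trans hk⟩
    rcases hD0.eq_or_lt with h0 | h0
    · -- a point
      have hz : ∀ k : ℕ, k0 ≤ k → volume {x ∈ X | f x ∈ T} ≤
          3 * ENNReal.ofReal ((b : ℝ) ^ (c - s * k)) := fun k hk =>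
        (measure_mono (hsub k (by rw [← h0]; positivity))).trans (h3 k hk z0)
      have ht : Tendsto (fun k : ℕ => 3 * ENNReal.ofReal ((b : ℝ) ^ (c - s * k))) atTop (𝓝 0) := by
        have h5 : Tendsto (fun k : ℕ => (b : ℝ) ^ (c - s * k)) atTop (𝓝 0) := by
          have h6 : Tendsto (fun k : ℕ => (c - s * k) : ℕ → ℝ) atTop atBot := by
            have := tendsto_neg_atTop_atBot.comp (tendsto_atTop_add_const_right atTop (-c)
              ((tendsto_natCast_atTop_atTop (R := ℝ)).const_mul_atTop hs))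
            refine this.congr fun k => ?_
            simp only [Function.comp]
            ring
          exact (tendsto_rpow_atBot_of_base_gt_one _ hb1).comp h6
        have h8 := ENNReal.tendsto_ofReal h5
        rw [ENNReal.ofReal_zero] at h8
        have h9 := ENNReal.Tendsto.const_mul (a := 3) h8 (Or.inr (by norm_num))
        rwa [mul_zero] at h9
      have : volume {x ∈ X | f x ∈ T} ≤ 0 :=
        ge_of_tendsto ht (eventually_atTop.2 ⟨k0, hz⟩)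
      exact this.trans zero_le
    · have hbi0 : (0 : ℝ) < (b : ℝ)⁻¹ := by positivity
      have hbi1 : (b : ℝ)⁻¹ < 1 := inv_lt_one_of_one_lt₀ hb1
      have hD2 : D ≤ 1 := hD1.trans (inv_le_one_of_one_le₀ (one_le_pow₀ hb1.le))
      obtain ⟨k, hk1, hk2⟩ := exists_nat_pow_near_of_lt_one h0 hD2 hbi0 hbi1
      have hk : k0 ≤ k := by
        by_contra hlt
        push Not at hlt
        have h5 : ((b : ℝ)⁻¹) ^ (k0 + 1) ≤ ((b : ℝ)⁻¹) ^ (k + 1) :=
          pow_le_pow_of_le_one hbi0.le hbi1.le (by omega)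
        rw [inv_pow] at h5
        linarith
      rw [inv_pow] at hk1 hk2
      refine (measure_mono (hsub k hk2)).trans ((h3 k hk z0).trans ?_)
      rw [hC, hDe, mul_assoc, ENNReal.ofReal_rpow_of_pos h0, ← ENNReal.ofReal_mul (by positivity)]
      gcongr
      have h6 : ((b : ℝ) ^ (k + 1))⁻¹ ^ s ≤ D ^ s := by gcongr
      calc (b : ℝ) ^ (c - s * k) = (b : ℝ) ^ (c + s) * ((b : ℝ) ^ (k + 1))⁻¹ ^ s := by
            rw [← Real.rpow_natCast, ← Real.rpow_neg hb0.le, ← Real.rpow_mul hb0.le,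
              ← Real.rpow_add hb0]
            congr 1
            push_cast
            ring
        _ ≤ _ := by gcongr
  -- the Hausdorff measure is positive
  have hne : μH[s] (f '' X) ≠ 0 := by
    intro hzero
    rw [Measure.hausdorffMeasure_apply] at hzero
    have hr : (0 : ℝ≥0∞) < ENNReal.ofReal (((b : ℝ) ^ (k0 + 1))⁻¹) := by
      rw [ENNReal.ofReal_pos]
      positivity
    have h5 : ⨅ (t : ℕ → Set ℝ) (_ : f '' X ⊆ ⋃ n, t n)
        (_ : ∀ n, Metric.ediam (t n) ≤ ENNReal.ofReal (((b : ℝ) ^ (k0 + 1))⁻¹)),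
          ∑' n, ⨆ _ : (t n).Nonempty, Metric.ediam (t n) ^ s = 0 := by
      refine le_antisymm ?_ zero_le
      rw [← hzero]
      exact le_iSup₂ (f := fun (r : ℝ≥0∞) (_ : 0 < r) => ⨅ (t : ℕ → Set ℝ) (_ : f '' X ⊆ ⋃ n, t n)
        (_ : ∀ n, Metric.ediam (t n) ≤ r), ∑' n, ⨆ _ : (t n).Nonempty, Metric.ediam (t n) ^ s) _ hr
    have h6 : volume X ≤ C * (⨅ (t : ℕ → Set ℝ) (_ : f '' X ⊆ ⋃ n, t n)
        (_ : ∀ n, Metric.ediam (t n) ≤ ENNReal.ofReal (((b : ℝ) ^ (k0 + 1))⁻¹)),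
          ∑' n, ⨆ _ : (t n).Nonempty, Metric.ediam (t n) ^ s) := by
      have hCpos : C ≠ 0 := by
        rw [hC]
        have : (0 : ℝ) < (b : ℝ) ^ (c + s) := by positivity
        simp [this]
      rw [mul_comm, ← ENNReal.div_le_iff_le_mul (Or.inl hCpos) (Or.inl hC0)]
      refine le_iInf fun t => le_iInf fun ht => le_iInf fun hd => ?_
      rw [ENNReal.div_le_iff_le_mul (Or.inl hCpos) (Or.inl hC0), mul_comm]
      have hcov : X ⊆ ⋃ n, {x ∈ X | f x ∈ t n} := by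
        intro x hx
        obtain ⟨n, hn⟩ := Set.mem_iUnion.1 (ht ⟨x, hx, rfl⟩)
        exact Set.mem_iUnion.2 ⟨n, hx, hn⟩
      refine (measure_mono hcov).trans ((measure_iUnion_le _).trans ?_)
      rw [← ENNReal.tsum_mul_left]
      refine ENNReal.tsum_le_tsum fun n => ?_
      by_cases hn : (t n).Nonempty
      · rw [iSup_pos hn]
        exact hvol _ hn (hd n)
      · rw [iSup_neg hn]
        have : {x ∈ X | f x ∈ t n} = ∅ := by
          rw [Set.not_nonempty_iff_eq_empty] at hn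
          rw [hn]
          simp
        rw [this]
        simp
    rw [h5, mul_zero] at h6
    exact hX (le_antisymm h6 zero_le)
  have hsn : ((Real.toNNReal s : ℝ≥0) : ℝ) = s := Real.coe_toNNReal _ hs.le
  have := le_dimH_of_hausdorffMeasure_ne_zero (s := f '' X) (d := Real.toNNReal s) (by
    rw [hsn]
    exact hne)
  exact this

/-- **Shrunk cylinders.** -/
theorem shrink_dim {b : ℕ} (hb : 2 ≤ b) {G : ℕ → Set ℤ}
    {m0 : ℤ} {L0 : ℕ} (hG : ∀ᵐ y : ℝ, ⌊y * (b : ℝ) ^ L0⌋ = m0 →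
      ∃ᶠ p in atTop, ⌊y * (b : ℝ) ^ p⌋ ∈ G p) {ε : ℝ} (hε : 0 < ε) :
    ENNReal.ofReal (1 / (1 + ε)) ≤ dimH {z : ℝ | ⌊z * (b : ℝ) ^ L0⌋ = m0 ∧
      ∃ᶠ p in atTop, ⌊z * (b : ℝ) ^ p⌋ ∈ G p ∧
        Int.fract (z * (b : ℝ) ^ p) < ((b : ℝ) ^ (⌊ε * p⌋₊ + 1))⁻¹} := by
  have hb0 := bpos hb
  have hb1 : (1 : ℝ) ≤ b := by
    have : (2 : ℝ) ≤ b := by exact_mod_cast hb
    linarith
  set E := {z : ℝ | ⌊z * (b : ℝ) ^ L0⌋ = m0 ∧
      ∃ᶠ p in atTop, ⌊z * (b : ℝ) ^ p⌋ ∈ G p ∧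
        Int.fract (z * (b : ℝ) ^ p) < ((b : ℝ) ^ (⌊ε * p⌋₊ + 1))⁻¹} with hE
  have key : ∀ δ : ℝ, 0 < δ → δ < 1 → ENNReal.ofReal ((1 - δ) / (1 + ε)) ≤ dimH E := by
    intro δ hδ hδ1
    set w : ℕ → ℕ := fun p => ⌊ε * p⌋₊ + 1 with hw
    set Q : ℕ → ℕ := fun L => ⌈(L : ℝ) / δ⌉₊ + 1 with hQ
    have hQ1 : ∀ L, L < Q L := by
      intro L
      have h1 : (L : ℝ) ≤ L / δ := by
        rw [le_div_iff₀ hδ]
        have : (0 : ℝ) ≤ L := Nat.cast_nonneg _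
        nlinarith
      have h2 : (L : ℝ) ≤ ⌈(L : ℝ) / δ⌉₊ := h1.trans (Nat.le_ceil _)
      have h3 : L ≤ ⌈(L : ℝ) / δ⌉₊ := by exact_mod_cast h2
      simp only [hQ]
      omega
    have hQδ : ∀ L : ℕ, (L : ℝ) ≤ δ * Q L := by
      intro L
      have h2 : (L : ℝ) / δ ≤ ⌈(L : ℝ) / δ⌉₊ := Nat.le_ceil _
      rw [div_le_iff₀ hδ] at h2
      simp only [hQ]
      push_cast
      nlinarith
    have hwp : ∀ p, 1 ≤ w p := fun p => by simp only [hw]; omega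
    have hw1 : ∀ p : ℕ, ε * p ≤ w p := by
      intro p
      simp only [hw]
      push_cast
      exact (Nat.lt_floor_add_one _).le
    have hw2 : ∀ p : ℕ, (w p : ℝ) ≤ ε * p + 1 := by
      intro p
      simp only [hw]
      push_cast
      have := Nat.floor_le (show 0 ≤ ε * (p : ℝ) by positivity)
      linarith
    set s0 : St := ⟨m0, L0, 0⟩ with hs0
    set X : Set ℝ := {x ∈ Set.Ico (0 : ℝ) 1 | Good b G Q w s0 x} with hX
    have hXv : volume X ≠ 0 := by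
      have h1 := ae_good (w := w) hb hQ1 (s0 := s0) hG
      have h2 : volume X = volume (Set.Ico (0 : ℝ) 1) := by
        refine measure_congr ?_
        filter_upwards [h1] with x hx
        exact propext ⟨fun h => h.1, fun h => ⟨h, hx⟩⟩
      rw [h2]
      simp
    have hs : 0 < (1 - δ) / (1 + ε) := div_pos (by linarith) (by linarith)
    refine (dim_of_cells hb hXv (f := psi b G Q w s0) (k0 := L0) (c := (L0 : ℝ) + 1) hs ?_).trans
      (dimH_mono ?_)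
    · intro k hk x hx y hy hxy
      obtain ⟨j, hj, hc⟩ := count (b := b) hQ1 hε hδ hδ1 hQδ hw1 hw2 (s0 := s0) rfl hx.2 k hk
      have h0 : ⌊x * (b : ℝ) ^ s0.n⌋ = ⌊y * (b : ℝ) ^ s0.n⌋ := by
        show ⌊x * (b : ℝ) ^ 0⌋ = ⌊y * (b : ℝ) ^ 0⌋
        rw [pow_zero, mul_one, mul_one, Int.floor_eq_zero_iff.2 hx.1, Int.floor_eq_zero_iff.2 hy.1]
      have h1 := dist_le hb (same_in hb hQ1 hwp hx.2 hy.2 h0 hxy j hj)
      refine h1.trans ?_
      rw [← Real.rpow_natCast, ← Real.rpow_neg hb0.le]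
      refine Real.rpow_le_rpow_of_exponent_le hb1 ?_
      have h2 : (1 - δ) / (1 + ε) * k - ((L0 : ℝ) + 1) ≤ _ := hc
      linarith
    · rintro _ ⟨x, hx, rfl⟩
      refine ⟨?_, psi_mem hb hQ1 hwp hx.2⟩
      have h1 := psi_spec hb hQ1 hwp hx.2 0 (q := L0) (L_lt hQ1 hx.2 0).le
      rw [h1]
      exact floor_bt_L hb s0 x
  refine le_of_forall_lt fun a ha => ?_
  have hcont : Tendsto (fun δ : ℝ => ENNReal.ofReal ((1 - δ) / (1 + ε))) (𝓝[>] 0)
      (𝓝 (ENNReal.ofReal (1 / (1 + ε)))) := by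
    refine ENNReal.tendsto_ofReal ?_
    have : ContinuousAt (fun δ : ℝ => (1 - δ) / (1 + ε)) 0 := by fun_prop
    have h1 := this.tendsto
    simp only [sub_zero] at h1
    exact h1.mono_left nhdsWithin_le_nhds
  have hev := hcont.eventually_const_lt ha
  have hev2 : ∀ᶠ δ : ℝ in 𝓝[>] 0, 0 < δ ∧ δ < 1 := by
    filter_upwards [self_mem_nhdsWithin, nhdsWithin_le_nhds (Iio_mem_nhds (zero_lt_one))] with δ h1 h2
    exact ⟨h1, h2⟩
  obtain ⟨δ, h1, h2, h3⟩ := (hev.and hev2).exists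
  exact h1.trans_le (key δ h2 h3)

end Pool.Agent.Q43.EX
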