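import Pool.Agent.Q43.EX.Gen
import Pool.Agent.Q43.EX.Hd
import Pool.Agent.TH888.R.Base

/-!
# Exceptional amplitudes: Hausdorff dimension
-/

set_option autoImplicit false

namespace Pool.Agent.Q43.EX

open MeasureTheory Filter Topology
open Pool.Agent.H305R2
open scoped ENNReal NNReal

/-! ### the prime number theorem -/

lemma pi_tendsto : Tendsto (fun n : ℕ => (Nat.primeCounting n : ℝ) * Real.log n / n) atTop (𝓝 1) := by
  obtain ⟨C, hC, h⟩ := Pool.Agent.Q43.BA.pi_rate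
  rw [tendsto_iff_norm_sub_tendsto_zero]
  have h0 : Tendsto (fun n : ℕ => C / Real.log n) atTop (𝓝 0) :=
    (Real.tendsto_log_atTop.comp tendsto_natCast_atTop_atTop).const_div_atTop C
  refine squeeze_zero' (Eventually.of_forall fun n => norm_nonneg _) ?_ h0
  filter_upwards [eventually_ge_atTop 2] with n hn
  have := h (n : ℝ) (by exact_mod_cast hn)
  rw [Nat.floor_natCast] at this
  exact this

lemma pi_small (C : ℕ) : ∀ᶠ p : ℕ in atTop, 4 * Nat.primeCounting (C * p) ≤ p := by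
  rcases Nat.eq_zero_or_pos C with h0 | h0
  · filter_upwards with p
    rw [h0, zero_mul]
    have : Nat.primeCounting 0 = 0 := by rw [Nat.primeCounting_zero]
    rw [this]
    omega
  have h1 : Tendsto (fun p : ℕ => C * p) atTop atTop := tendsto_id.const_mul_atTop' h0
  have h2 := (pi_tendsto.comp h1).eventually_le_const (show (1 : ℝ) < 2 by norm_num)
  have h3 : Tendsto (fun p : ℕ => Real.log ((C * p : ℕ) : ℝ)) atTop atTop :=
    Real.tendsto_log_atTop.comp (tendsto_natCast_atTop_atTop.comp h1)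
  filter_upwards [h2, h3.eventually_ge_atTop (8 * C), eventually_gt_atTop 0] with p e1 e2 e3
  simp only [Function.comp] at e1
  have hC0 : (0 : ℝ) < C := by exact_mod_cast h0
  have hp0 : (0 : ℝ) < p := by exact_mod_cast e3
  have hl : 0 < Real.log ((C * p : ℕ) : ℝ) := by linarith
  rw [div_le_iff₀ (by push_cast; positivity)] at e1
  have e4 : (Nat.primeCounting (C * p) : ℝ) * (8 * C) ≤ 2 * (C * p) := by
    calc _ ≤ (Nat.primeCounting (C * p) : ℝ) * Real.log ((C * p : ℕ) : ℝ) := by gcongr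
      _ ≤ 2 * ((C * p : ℕ) : ℝ) := e1
      _ = _ := by push_cast; ring
  have e5 : 4 * (Nat.primeCounting (C * p) : ℝ) ≤ p := by
    have : (4 * (Nat.primeCounting (C * p) : ℝ)) * (2 * C) ≤ p * (2 * C) := by linarith
    exact le_of_mul_le_mul_right this (by positivity)
  exact_mod_cast e5

lemma pi_ratio {ε : ℝ} (hε : 0 < ε) :
    Tendsto (fun p : ℕ => (Nat.primeCounting p : ℝ) / Nat.primeCounting (p + ⌊ε * p⌋₊)) atTop
      (𝓝 (1 / (1 + ε))) := by
  have h1 : Tendsto (fun p : ℕ => p + ⌊ε * (p : ℝ)⌋₊) atTop atTop :=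
    tendsto_atTop_mono (fun p => Nat.le_add_right _ _) tendsto_id
  have h2 := pi_tendsto.comp h1
  have h3 := pi_tendsto.div h2 one_ne_zero
  rw [div_one] at h3
  -- the quotient of the two arguments
  have h4 : Tendsto (fun p : ℕ => ((p + ⌊ε * (p : ℝ)⌋₊ : ℕ) : ℝ) / p) atTop (𝓝 (1 + ε)) := by
    have h5 : Tendsto (fun p : ℕ => (⌊ε * (p : ℝ)⌋₊ : ℝ) / p) atTop (𝓝 ε) :=
      (tendsto_nat_floor_mul_div_atTop hε.le).comp tendsto_natCast_atTop_atTop
    have h6 := h5.const_add 1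
    refine h6.congr' ?_
    filter_upwards [eventually_gt_atTop 0] with p hp
    have hp0 : (0 : ℝ) < p := by exact_mod_cast hp
    push_cast
    field_simp
  -- the quotient of the two logarithms
  have hlog : Tendsto (fun p : ℕ => Real.log p) atTop atTop :=
    Real.tendsto_log_atTop.comp tendsto_natCast_atTop_atTop
  have h7 : Tendsto (fun p : ℕ => Real.log ((p + ⌊ε * (p : ℝ)⌋₊ : ℕ) : ℝ) / Real.log p) atTop (𝓝 1) := by
    have h8 : Tendsto (fun p : ℕ => Real.log (((p + ⌊ε * (p : ℝ)⌋₊ : ℕ) : ℝ) / p)) atTop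
        (𝓝 (Real.log (1 + ε))) := h4.log (by positivity)
    have h9 := (h8.div_atTop hlog).const_add 1
    rw [add_zero] at h9
    refine h9.congr' ?_
    filter_upwards [hlog.eventually_gt_atTop 0, eventually_gt_atTop 0] with p e1 e2
    have hp0 : (0 : ℝ) < p := by exact_mod_cast e2
    have hq0 : (0 : ℝ) < ((p + ⌊ε * (p : ℝ)⌋₊ : ℕ) : ℝ) := by
      push_cast
      positivity
    rw [Real.log_div hq0.ne' hp0.ne']
    field_simp
    ring
  have h10 := (h3.mul h7).mul (h4.inv₀ (by positivity))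
  rw [one_mul, one_mul, ← one_div] at h10
  refine h10.congr' ?_
  filter_upwards [hlog.eventually_gt_atTop 0, (hlog.comp h1).eventually_gt_atTop 0,
    eventually_gt_atTop 0] with p e1 e2 e3
  simp only [Function.comp, Pi.div_apply] at e2 ⊢
  have hp0 : (0 : ℝ) < p := by exact_mod_cast e3
  have hq0 : (0 : ℝ) < ((p + ⌊ε * (p : ℝ)⌋₊ : ℕ) : ℝ) := by
    push_cast
    positivity
  generalize p + ⌊ε * (p : ℝ)⌋₊ = q at *
  by_cases h0 : (Nat.primeCounting q : ℝ) = 0
  · rw [h0]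
    simp
  · field_simp

/-! ### smooth values -/

/-- for almost every `y` the integers `⌊y b ^ p⌋` have a prime factor larger than `C p` if `p` is
large -/
lemma smooth_ae {b : ℕ} (hb : 2 ≤ b) (C : ℕ) :
    ∀ᵐ y : ℝ, ∀ᶠ p : ℕ in atTop, ⌊y * (b : ℝ) ^ p⌋.natAbs ∉ SM (C * p) := by
  have hb2 : (2 : ℝ) ≤ b := by exact_mod_cast hb
  have hb0 : (0 : ℝ) < b := by linarith
  have key : ∀ T : ℕ, ∀ᵐ y : ℝ, ∀ᶠ p : ℕ in atTop,
      ¬ (|y| ≤ T + 1 ∧ ⌊y * (b : ℝ) ^ p⌋.natAbs ∈ SM (C * p)) := by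
    intro T
    set S : ℕ → Set ℝ := fun p => {y | |y| ≤ T + 1 ∧ ⌊y * (b : ℝ) ^ p⌋.natAbs ∈ SM (C * p)} with hS
    set F : ℕ → Finset ℕ := fun p => Nat.smoothNumbersUpTo ((T + 1) * b ^ p + 1) (C * p + 1) with hF
    have hbp : ∀ p : ℕ, (0 : ℝ) < (b : ℝ) ^ p := fun p => by positivity
    -- the cover
    have hcov : ∀ p, S p ⊆ ⋃ m ∈ F p, (Set.Ico ((m : ℝ) / (b : ℝ) ^ p) ((m + 1) / (b : ℝ) ^ p) ∪
        Set.Ico (-(m : ℝ) / (b : ℝ) ^ p) ((-(m : ℝ) + 1) / (b : ℝ) ^ p)) := by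
      intro p y hy
      obtain ⟨hy1, hy2⟩ := hy
      have h1 := Int.floor_le (y * (b : ℝ) ^ p)
      have h2 := Int.lt_floor_add_one (y * (b : ℝ) ^ p)
      rw [abs_le] at hy1
      rw [Set.mem_iUnion₂]
      refine ⟨⌊y * (b : ℝ) ^ p⌋.natAbs, ?_, ?_⟩
      · simp only [hF]
        rw [Nat.mem_smoothNumbersUpTo]
        refine ⟨?_, hy2⟩
        have h3 : |⌊y * (b : ℝ) ^ p⌋| ≤ (((T + 1) * b ^ p + 1 : ℕ) : ℤ) := by
          rw [abs_le]
          have h4 : y * (b : ℝ) ^ p ≤ (T + 1) * (b : ℝ) ^ p := mul_le_mul_of_nonneg_right hy1.2 (hbp p).le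
          have h5 : -((T + 1) * (b : ℝ) ^ p) ≤ y * (b : ℝ) ^ p := by
            rw [← neg_mul]
            exact mul_le_mul_of_nonneg_right hy1.1 (hbp p).le
          constructor
          · have h6 : -(((T + 1) * b ^ p + 1 : ℕ) : ℝ) < ⌊y * (b : ℝ) ^ p⌋ + 1 := by
              push_cast
              linarith
            have h7 : -(((T + 1) * b ^ p + 1 : ℕ) : ℤ) < ⌊y * (b : ℝ) ^ p⌋ + 1 := by exact_mod_cast h6
            omega
          · have h6 : (⌊y * (b : ℝ) ^ p⌋ : ℝ) ≤ (((T + 1) * b ^ p + 1 : ℕ) : ℝ) := by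
              push_cast
              linarith
            exact_mod_cast h6
        rw [Int.abs_eq_natAbs] at h3
        exact_mod_cast h3
      · rcases Int.natAbs_eq ⌊y * (b : ℝ) ^ p⌋ with h3 | h3
        · left
          have h4 : (⌊y * (b : ℝ) ^ p⌋ : ℝ) = (⌊y * (b : ℝ) ^ p⌋.natAbs : ℝ) :=
            (congrArg (Int.cast : ℤ → ℝ) h3).trans (Int.cast_natCast _)
          rw [h4] at h1 h2
          exact ⟨by rw [div_le_iff₀ (hbp p)]; exact h1, by rw [lt_div_iff₀ (hbp p)]; exact h2⟩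
        · right
          have h4 : (⌊y * (b : ℝ) ^ p⌋ : ℝ) = -(⌊y * (b : ℝ) ^ p⌋.natAbs : ℝ) :=
            (congrArg (Int.cast : ℤ → ℝ) h3).trans (by rw [Int.cast_neg, Int.cast_natCast])
          rw [h4] at h1 h2
          exact ⟨by rw [div_le_iff₀ (hbp p)]; exact h1, by rw [lt_div_iff₀ (hbp p)]; exact h2⟩
    have hvol : ∀ p, volume (S p) ≤ ENNReal.ofReal ((F p).card * (2 / (b : ℝ) ^ p)) := by
      intro p
      refine (measure_mono (hcov p)).trans ((measure_biUnion_finset_le _ _).trans ?_)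
      have h1 : ∀ m ∈ F p, volume (Set.Ico ((m : ℝ) / (b : ℝ) ^ p) ((m + 1) / (b : ℝ) ^ p) ∪
        Set.Ico (-(m : ℝ) / (b : ℝ) ^ p) ((-(m : ℝ) + 1) / (b : ℝ) ^ p)) ≤
          ENNReal.ofReal (2 / (b : ℝ) ^ p) := by
        intro m _
        refine (measure_union_le _ _).trans ?_
        rw [Real.volume_Ico, Real.volume_Ico, ← ENNReal.ofReal_add]
        · refine ENNReal.ofReal_le_ofReal (le_of_eq ?_)
          ring
        · rw [← sub_div]
          have := hbp p
          have h : (m : ℝ) + 1 - m = 1 := by ring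
          rw [h]
          positivity
        · rw [← sub_div]
          have := hbp p
          have h : -(m : ℝ) + 1 - -m = 1 := by ring
          rw [h]
          positivity
      refine (Finset.sum_le_sum h1).trans ?_
      rw [Finset.sum_const, nsmul_eq_mul, ENNReal.ofReal_mul (Nat.cast_nonneg _), ENNReal.ofReal_natCast]
    -- the number of smooth numbers
    have hcard : ∀ᶠ p : ℕ in atTop, ((F p).card : ℝ) * (2 / (b : ℝ) ^ p) ≤
        2 * Real.sqrt (2 * (T + 1)) * ((1 / 2 : ℝ) ^ ((1 : ℝ) / 4)) ^ p := by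
      filter_upwards [pi_small C] with p hp
      have h1 := Nat.smoothNumbersUpTo_card_le ((T + 1) * b ^ p + 1) (C * p + 1)
      have h2 : (C * p + 1).primesBelow.card = Nat.primeCounting (C * p) := by
        rw [Nat.primesBelow_card_eq_primeCounting']
        rfl
      rw [h2] at h1
      have h3 : ((F p).card : ℝ) ≤ 2 ^ Nat.primeCounting (C * p) * Real.sqrt ((T + 1) * (b : ℝ) ^ p + 1) := by
        have h4 : ((F p).card : ℝ) ≤ ((2 ^ Nat.primeCounting (C * p) * ((T + 1) * b ^ p + 1).sqrt : ℕ) : ℝ) := by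
          exact_mod_cast h1
        refine h4.trans ?_
        push_cast
        gcongr
        have := Real.nat_sqrt_le_real_sqrt (a := (T + 1) * b ^ p + 1)
        push_cast at this
        exact this
      have h5 : Real.sqrt ((T + 1) * (b : ℝ) ^ p + 1) ≤ Real.sqrt (2 * (T + 1)) * Real.sqrt ((b : ℝ) ^ p) := by
        rw [← Real.sqrt_mul (by positivity)]
        apply Real.sqrt_le_sqrt
        have h6 : (1 : ℝ) ≤ (b : ℝ) ^ p := one_le_pow₀ (by linarith)
        have h7 : (0 : ℝ) ≤ T := Nat.cast_nonneg _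
        nlinarith
      -- powers of two
      have h8 : (2 : ℝ) ^ Nat.primeCounting (C * p) ≤ (2 : ℝ) ^ ((p : ℝ) / 4) := by
        rw [← Real.rpow_natCast]
        refine Real.rpow_le_rpow_of_exponent_le (by norm_num) ?_
        rw [le_div_iff₀ (by norm_num)]
        have : ((4 * Nat.primeCounting (C * p) : ℕ) : ℝ) ≤ p := by exact_mod_cast hp
        push_cast at this
        linarith
      have h9 : Real.sqrt ((b : ℝ) ^ p) * (2 / (b : ℝ) ^ p) ≤ 2 * (1 / 2 : ℝ) ^ ((p : ℝ) / 2) := by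
        have h10 : 0 < Real.sqrt ((b : ℝ) ^ p) := Real.sqrt_pos.2 (hbp p)
        have h11 : Real.sqrt ((b : ℝ) ^ p) * Real.sqrt ((b : ℝ) ^ p) = (b : ℝ) ^ p :=
          Real.mul_self_sqrt (hbp p).le
        have h12 : Real.sqrt ((b : ℝ) ^ p) * (2 / (b : ℝ) ^ p) = 2 / Real.sqrt ((b : ℝ) ^ p) := by
          rw [eq_div_iff h10.ne']
          calc Real.sqrt ((b : ℝ) ^ p) * (2 / (b : ℝ) ^ p) * Real.sqrt ((b : ℝ) ^ p) =
              (Real.sqrt ((b : ℝ) ^ p) * Real.sqrt ((b : ℝ) ^ p)) * (2 / (b : ℝ) ^ p) := by ring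
            _ = 2 := by
              rw [h11]
              have := (hbp p).ne'
              field_simp
        rw [h12, div_eq_mul_one_div]
        gcongr
        have h13 : (2 : ℝ) ^ ((p : ℝ) / 2) ≤ Real.sqrt ((b : ℝ) ^ p) := by
          rw [Real.sqrt_eq_rpow, ← Real.rpow_natCast, ← Real.rpow_mul hb0.le]
          have : (p : ℝ) * (1 / 2) = (p : ℝ) / 2 := by ring
          rw [this]
          gcongr
        rw [one_div, one_div, Real.inv_rpow (by norm_num)]
        exact inv_anti₀ (by positivity) h13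
      calc ((F p).card : ℝ) * (2 / (b : ℝ) ^ p)
          ≤ ((2 : ℝ) ^ ((p : ℝ) / 4) * (Real.sqrt (2 * (T + 1)) * Real.sqrt ((b : ℝ) ^ p))) *
            (2 / (b : ℝ) ^ p) := by
            refine mul_le_mul_of_nonneg_right (h3.trans ?_) (by positivity)
            gcongr
        _ = ((2 : ℝ) ^ ((p : ℝ) / 4) * Real.sqrt (2 * (T + 1))) *
            (Real.sqrt ((b : ℝ) ^ p) * (2 / (b : ℝ) ^ p)) := by ring
        _ ≤ ((2 : ℝ) ^ ((p : ℝ) / 4) * Real.sqrt (2 * (T + 1))) * (2 * (1 / 2 : ℝ) ^ ((p : ℝ) / 2)) := by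
            gcongr
        _ = 2 * Real.sqrt (2 * (T + 1)) * ((2 : ℝ) ^ ((p : ℝ) / 4) * (1 / 2 : ℝ) ^ ((p : ℝ) / 2)) := by ring
        _ = 2 * Real.sqrt (2 * (T + 1)) * ((1 / 2 : ℝ) ^ ((1 : ℝ) / 4)) ^ p := by
            congr 1
            have e1 : (2 : ℝ) ^ ((p : ℝ) / 4) = (1 / 2 : ℝ) ^ (-((p : ℝ) / 4)) := by
              rw [one_div, Real.inv_rpow (by norm_num), Real.rpow_neg (by norm_num), inv_inv]
            rw [e1, ← Real.rpow_add (by norm_num), ← Real.rpow_natCast, ← Real.rpow_mul (by norm_num)]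
            congr 1
            ring
    have hsum : Summable fun p : ℕ => ((F p).card : ℝ) * (2 / (b : ℝ) ^ p) := by
      have hr0 : (0 : ℝ) ≤ (1 / 2 : ℝ) ^ ((1 : ℝ) / 4) := by positivity
      have hr1 : (1 / 2 : ℝ) ^ ((1 : ℝ) / 4) < 1 :=
        Real.rpow_lt_one (by norm_num) (by norm_num) (by norm_num)
      have h1 := (summable_geometric_of_lt_one hr0 hr1).mul_left (2 * Real.sqrt (2 * (T + 1)))
      refine Summable.of_norm_bounded_eventually_nat h1 ?_
      filter_upwards [hcard] with p hp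
      rw [Real.norm_of_nonneg (by positivity)]
      exact hp
    have hfin : ∑' p, volume (S p) ≠ ⊤ := by
      refine ne_top_of_le_ne_top ?_ (ENNReal.tsum_le_tsum hvol)
      rw [← ENNReal.ofReal_tsum_of_nonneg (fun p => by positivity) hsum]
      exact ENNReal.ofReal_ne_top
    exact ae_eventually_notMem hfin
  rw [← ae_all_iff] at key
  filter_upwards [key] with y hy
  obtain ⟨T, hT⟩ := exists_nat_gt |y|
  filter_upwards [hy T] with p hp h
  exact hp ⟨by linarith, h⟩

/-- almost every real number is not a `b`-adic rational -/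
lemma notadic_ae {b : ℕ} (hb : 2 ≤ b) : ∀ᵐ y : ℝ, ∀ (p : ℕ) (k : ℤ), y * (b : ℝ) ^ p ≠ k := by
  have hb0 := bpos hb
  rw [ae_all_iff]; intro p
  rw [ae_all_iff]; intro k
  rw [ae_iff]
  have : {y : ℝ | ¬ y * (b : ℝ) ^ p ≠ k} ⊆ {(k : ℝ) / (b : ℝ) ^ p} := by
    intro y hy
    simp only [Set.mem_ofPred_eq, not_not] at hy
    rw [Set.mem_singleton_iff, eq_div_iff (by positivity)]
    exact hy
  exact measure_mono_null this (by simp)

end Pool.Agent.Q43.EX
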