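import Pool.Agent.Q43.EX.Exc

/-!
# Exceptional amplitudes: the theorems
-/

set_option autoImplicit false

namespace Pool.Agent.Q43.EX

open MeasureTheory Filter Topology
open Pool.Agent.H305R2
open scoped ENNReal NNReal

/-- the largest integer below `β b ^ p` -/
noncomputable def uA (b : ℕ) (β : ℝ) (p : ℕ) : ℕ := ⌈β * (b : ℝ) ^ p⌉₊ - 1

/-- the smallest integer above `β b ^ p` -/
noncomputable def uB (b : ℕ) (β : ℝ) (p : ℕ) : ℕ := ⌊β * (b : ℝ) ^ p⌋₊ + 1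

/-- a run of zeros -/
def RA (b m p w : ℕ) : Set ℝ := Set.Ioo ((m : ℝ) / (b : ℝ) ^ p) ((m + ((b : ℝ) ^ w)⁻¹) / (b : ℝ) ^ p)

/-- a run of the largest digit -/
def RB (b m p w : ℕ) : Set ℝ := Set.Ioo ((m - ((b : ℝ) ^ w)⁻¹) / (b : ℝ) ^ p) ((m : ℝ) / (b : ℝ) ^ p)

lemma run_A {b : ℕ} (hb : 2 ≤ b) {m p w : ℕ} {β : ℝ} (hβ : β ∈ RA b m p w) {q : ℕ} (hq1 : p ≤ q)
    (hq2 : q ≤ p + w) : uA b β q = m * b ^ (q - p) := by
  have hb0 := bpos hb
  have hb1 : (1 : ℝ) ≤ b := by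
    have : (2 : ℝ) ≤ b := by exact_mod_cast hb
    linarith
  have hbp : (0 : ℝ) < (b : ℝ) ^ p := by positivity
  have hbq : (0 : ℝ) < (b : ℝ) ^ (q - p) := by positivity
  obtain ⟨h1, h2⟩ := hβ
  rw [div_lt_iff₀ hbp] at h1
  rw [lt_div_iff₀ hbp] at h2
  have e : β * (b : ℝ) ^ q = (β * (b : ℝ) ^ p) * (b : ℝ) ^ (q - p) := by
    rw [mul_assoc, ← pow_add]
    congr 2
    omega
  have h3 : ((m * b ^ (q - p) : ℕ) : ℝ) < β * (b : ℝ) ^ q := by
    rw [e]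
    push_cast
    gcongr
  have h4 : β * (b : ℝ) ^ q ≤ ((m * b ^ (q - p) + 1 : ℕ) : ℝ) := by
    rw [e]
    push_cast
    have h5 : ((b : ℝ) ^ w)⁻¹ * (b : ℝ) ^ (q - p) ≤ 1 := by
      rw [inv_mul_le_one₀ (by positivity)]
      exact pow_le_pow_right₀ hb1 (by omega)
    nlinarith
  have h6 : ⌈β * (b : ℝ) ^ q⌉₊ = m * b ^ (q - p) + 1 := by
    rw [Nat.ceil_eq_iff (by omega)]
    constructor
    · rw [Nat.add_sub_cancel]
      exact h3
    · exact h4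
  unfold uA
  rw [h6]
  omega

lemma run_B {b : ℕ} (hb : 2 ≤ b) {m p w : ℕ} (hm : 1 ≤ m) {β : ℝ} (hβ : β ∈ RB b m p w) {q : ℕ}
    (hq1 : p ≤ q) (hq2 : q ≤ p + w) : uB b β q = m * b ^ (q - p) := by
  have hb0 := bpos hb
  have hb1 : (1 : ℝ) ≤ b := by
    have : (2 : ℝ) ≤ b := by exact_mod_cast hb
    linarith
  have hbp : (0 : ℝ) < (b : ℝ) ^ p := by positivity
  have hbq : (0 : ℝ) < (b : ℝ) ^ (q - p) := by positivity
  obtain ⟨h1, h2⟩ := hβ
  rw [div_lt_iff₀ hbp] at h1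
  rw [lt_div_iff₀ hbp] at h2
  have e : β * (b : ℝ) ^ q = (β * (b : ℝ) ^ p) * (b : ℝ) ^ (q - p) := by
    rw [mul_assoc, ← pow_add]
    congr 2
    omega
  have hN : 1 ≤ m * b ^ (q - p) := Nat.one_le_iff_ne_zero.2 (mul_ne_zero (by omega) (pow_ne_zero _ (by omega)))
  have h3 : β * (b : ℝ) ^ q < ((m * b ^ (q - p) : ℕ) : ℝ) := by
    rw [e]
    push_cast
    gcongr
  have h4 : ((m * b ^ (q - p) : ℕ) : ℝ) - 1 ≤ β * (b : ℝ) ^ q := by
    rw [e]
    push_cast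
    have h5 : ((b : ℝ) ^ w)⁻¹ * (b : ℝ) ^ (q - p) ≤ 1 := by
      rw [inv_mul_le_one₀ (by positivity)]
      exact pow_le_pow_right₀ hb1 (by omega)
    nlinarith
  have h0 : (1 : ℝ) ≤ ((m * b ^ (q - p) : ℕ) : ℝ) := by exact_mod_cast hN
  have h6 : ⌊β * (b : ℝ) ^ q⌋₊ = m * b ^ (q - p) - 1 := by
    rw [Nat.floor_eq_iff (by linarith)]
    rw [Nat.cast_sub hN, Nat.cast_one]
    constructor
    · exact h4
    · linarith
  unfold uB
  rw [h6]
  omega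

/-- generic amplitudes, largest integers below `β b ^ p` -/
theorem generic_A {b : ℕ} (hb : 2 ≤ b) {f : ℕ → ℝ} (hf : Tendsto f atTop atTop) :
    {β : ℝ | 0 < β → limsup (fun n : ℕ => (Mc (uA b β) n : ℝ) / Nat.primeCounting n) atTop = 1 ∧
      ∀ ε : ℝ, 0 < ε → ∃ᶠ n in atTop, (Mc (uA b β) n : ℝ) < ε * f n} ∈ residual ℝ := by
  have hb0 := bpos hb
  refine generic hb (uA b) (RA b) (fun _ _ _ => isOpen_Ioo)
    (fun m p w _ β hβ q h1 h2 => run_A hb hβ h1 h2) (fun m p w s t h1 h2 => ?_) hf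
  have hbp : (0 : ℝ) < (b : ℝ) ^ p := by positivity
  have hbw : (0 : ℝ) < ((b : ℝ) ^ w)⁻¹ := by positivity
  have h3 : (m : ℝ) / (b : ℝ) ^ p < min t ((m + ((b : ℝ) ^ w)⁻¹) / (b : ℝ) ^ p) := by
    refine lt_min h2 ?_
    gcongr
    linarith
  obtain ⟨x, hx1, hx2⟩ := exists_between h3
  exact ⟨x, ⟨hx1, hx2.trans_le (min_le_right _ _)⟩, h1.trans hx1, hx2.trans_le (min_le_left _ _)⟩

/-- generic amplitudes, smallest integers above `β b ^ p` -/
theorem generic_B {b : ℕ} (hb : 2 ≤ b) {f : ℕ → ℝ} (hf : Tendsto f atTop atTop) :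
    {β : ℝ | 0 < β → limsup (fun n : ℕ => (Mc (uB b β) n : ℝ) / Nat.primeCounting n) atTop = 1 ∧
      ∀ ε : ℝ, 0 < ε → ∃ᶠ n in atTop, (Mc (uB b β) n : ℝ) < ε * f n} ∈ residual ℝ := by
  have hb0 := bpos hb
  refine generic hb (uB b) (RB b) (fun _ _ _ => isOpen_Ioo)
    (fun m p w hm β hβ q h1 h2 => run_B hb hm hβ h1 h2) (fun m p w s t h1 h2 => ?_) hf
  have hbp : (0 : ℝ) < (b : ℝ) ^ p := by positivity
  have hbw : (0 : ℝ) < ((b : ℝ) ^ w)⁻¹ := by positivity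
  have h3 : max s ((m - ((b : ℝ) ^ w)⁻¹) / (b : ℝ) ^ p) < (m : ℝ) / (b : ℝ) ^ p := by
    refine max_lt h1 ?_
    gcongr
    linarith
  obtain ⟨x, hx1, hx2⟩ := exists_between h3
  exact ⟨x, ⟨(le_max_right _ _).trans_lt hx1, hx2⟩, (le_max_left _ _).trans_lt hx1, hx2.trans h2⟩

/-! ### dimension -/

/-- the good integers at the level `p` -/
def GG (C p : ℕ) : Set ℤ :=
  {z | p.Prime ∧ (roughPart p z.natAbs).Prime ∧ C * p < roughPart p z.natAbs}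

lemma not_smooth {C p m : ℕ} (hC : 1 ≤ C) (h : (roughPart p m).Prime) (hs : m ∉ SM (C * p)) :
    C * p < roughPart p m := by
  by_contra hc
  push Not at hc
  obtain ⟨-, s, hs', he⟩ := roughPart_prime h
  refine hs ?_
  rw [he]
  have h1 : p ≤ C * p := Nat.le_mul_of_pos_left p hC
  exact Nat.mul_mem_smoothNumbers (Nat.smoothNumbers_mono (by omega) hs')
    (Nat.mem_smoothNumbers_of_lt h.pos (by omega))

lemma ceil_of_not {y : ℝ} (hy : 0 < y) (h : ∀ k : ℤ, y ≠ k) : ⌈y⌉₊ - 1 = ⌊y⌋.natAbs := by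
  have h1 : (⌊y⌋.natAbs : ℤ) = ⌊y⌋ := Int.natAbs_of_nonneg (Int.floor_nonneg.2 hy.le)
  have h2 : (⌊y⌋ : ℝ) < y := lt_of_le_of_ne (Int.floor_le y) (fun e => h _ e.symm)
  have h3 := Int.lt_floor_add_one y
  have h4 : ((⌊y⌋.natAbs : ℕ) : ℝ) = ⌊y⌋ := by rw [← Int.cast_natCast, h1]
  have h5 : ⌈y⌉₊ = ⌊y⌋.natAbs + 1 := by
    rw [Nat.ceil_eq_iff (by omega)]
    rw [Nat.add_sub_cancel]
    rw [Nat.cast_add, Nat.cast_one, h4]
    exact ⟨h2, h3.le⟩
  omega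

lemma floor_of_not {y : ℝ} (hy : y < 0) (h : ∀ k : ℤ, y ≠ k) : ⌊-y⌋₊ + 1 = ⌊y⌋.natAbs := by
  have h2 : (⌊y⌋ : ℝ) < y := lt_of_le_of_ne (Int.floor_le y) (fun e => h _ e.symm)
  have h3 := Int.lt_floor_add_one y
  have h6 : ⌊y⌋ < 0 := by
    have : (⌊y⌋ : ℝ) < 0 := h2.trans hy
    exact_mod_cast this
  have h1 : (⌊y⌋.natAbs : ℤ) = -⌊y⌋ := by omega
  have h7 : 1 ≤ ⌊y⌋.natAbs := by omega
  have h5 : ⌊-y⌋₊ = ⌊y⌋.natAbs - 1 := by
    rw [Nat.floor_eq_iff (by linarith), Nat.cast_sub h7, Nat.cast_one]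
    have h8 : ((⌊y⌋.natAbs : ℕ) : ℝ) = -⌊y⌋ := by
      have := congrArg (Int.cast : ℤ → ℝ) h1
      push_cast at this
      rw [← this]
      simp
    rw [h8]
    constructor <;> linarith
  omega

/-- infinitely many good levels, positive numbers -/
lemma freq_pos {b : ℕ} (hb : 2 ≤ b) {C : ℕ} (hC : 1 ≤ C) :
    ∀ᵐ y : ℝ, 0 < y → ∃ᶠ p in atTop, ⌊y * (b : ℝ) ^ p⌋ ∈ GG C p := by
  have hb1 : (1 : ℝ) < b := by
    have : (2 : ℝ) ≤ b := by exact_mod_cast hb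
    linarith
  have hg : ∀ p : ℕ, |(fun _ : ℕ => (0 : ℝ)) p| ≤ (0 : ℝ) * (1 : ℝ) ^ p := by simp
  have h := Pool.Agent.TH888.R.pt_ceil (α := (b : ℝ)) (κ := 1) (C := 0) (g := fun _ => 0)
      hb1 (by norm_num) hb1 hg (Pool.Agent.TH888.R.near_base (b := b) hb (by norm_num) hb1 hg) Set.univ
  filter_upwards [h, smooth_ae hb C, notadic_ae hb] with y h1 h2 h3 hy
  have hinf := (h1 hy).inf Pool.Agent.TH888.R.VS_univ_tendsto
  have hfr := Nat.frequently_atTop_iff_infinite.2 hinf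
  refine (hfr.and_eventually h2).mono fun p hp => ?_
  obtain ⟨⟨a1, -, a2⟩, a3⟩ := hp
  have hyp : 0 < y * (b : ℝ) ^ p := by
    have := bpos hb
    positivity
  simp only [add_zero] at a2
  rw [ceil_of_not hyp (h3 p)] at a2
  exact ⟨a1, a2, not_smooth hC a2 a3⟩

/-- infinitely many good levels, negative numbers -/
lemma freq_neg {b : ℕ} (hb : 2 ≤ b) {C : ℕ} (hC : 1 ≤ C) :
    ∀ᵐ y : ℝ, y < 0 → ∃ᶠ p in atTop, ⌊y * (b : ℝ) ^ p⌋ ∈ GG C p := by
  have hb1 : (1 : ℝ) < b := by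
    have : (2 : ℝ) ≤ b := by exact_mod_cast hb
    linarith
  have hg : ∀ p : ℕ, |(fun _ : ℕ => (1 : ℝ)) p| ≤ (1 : ℝ) * (1 : ℝ) ^ p := by simp
  have h := Pool.Agent.TH888.R.pt_floor (α := (b : ℝ)) (κ := 1) (C := 1) (g := fun _ => 1)
      hb1 (by norm_num) hb1 hg (Pool.Agent.TH888.R.near_base (b := b) hb (by norm_num) hb1 hg) Set.univ
  have h' : ∀ᵐ y : ℝ, 0 < -y → Pool.Agent.TH888.R.Pt (fun p => ⌊-y * (b : ℝ) ^ p + 1⌋₊)
      (Real.exp Real.eulerMascheroniConstant / Real.log b) Set.univ := by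
    rw [ae_iff] at h ⊢
    have := (Measure.measurePreserving_neg (volume : Measure ℝ)).quasiMeasurePreserving.preimage_null h
    exact this
  filter_upwards [h', smooth_ae hb C, notadic_ae hb] with y h1 h2 h3 hy
  have hinf := (h1 (by linarith)).inf Pool.Agent.TH888.R.VS_univ_tendsto
  have hfr := Nat.frequently_atTop_iff_infinite.2 hinf
  refine (hfr.and_eventually h2).mono fun p hp => ?_
  obtain ⟨⟨a1, -, a2⟩, a3⟩ := hp
  have hbp : 0 < (b : ℝ) ^ p := by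
    have := bpos hb
    positivity
  have hyp : y * (b : ℝ) ^ p < 0 := mul_neg_of_neg_of_pos hy hbp
  have hyp2 : 0 ≤ -y * (b : ℝ) ^ p := by nlinarith
  rw [Nat.floor_add_one hyp2, neg_mul, floor_of_not hyp (h3 p)] at a2
  exact ⟨a1, a2, not_smooth hC a2 a3⟩

/-- infinitely many long runs give a positive upper density -/
lemma upper_of_runs {b : ℕ} (hb : 2 ≤ b) {u : ℕ → ℕ} {ε : ℝ} (hε : 0 < ε) {C : ℕ} (hC : 1 + ε ≤ C)
    (h : ∃ᶠ p in atTop, ∃ m : ℕ, (roughPart p m).Prime ∧ C * p < roughPart p m ∧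
      ∀ q, p ≤ q → q ≤ p + ⌊ε * (p : ℝ)⌋₊ → u q = m * b ^ (q - p)) :
    ε / (1 + ε) ≤ limsup (fun n : ℕ => (Mc u n : ℝ) / Nat.primeCounting n) atTop := by
  refine le_limsup_ratio fun η hη => ?_
  have h1 := pi_ratio hε
  have h2 : 1 / (1 + ε) < 1 - η := by
    have : 1 / (1 + ε) = 1 - ε / (1 + ε) := by
      field_simp
      ring
    rw [this]
    linarith
  have h3 := h1.eventually_lt_const h2
  rw [frequently_atTop] at h ⊢
  obtain ⟨P, hP⟩ := eventually_atTop.1 (h3.and (eventually_ge_atTop (max b 2)))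
  intro a
  obtain ⟨p, hp, m, hm1, hm2, hm3⟩ := h (max a P)
  obtain ⟨e1, e2⟩ := hP p ((le_max_right _ _).trans hp)
  set N := p + ⌊ε * (p : ℝ)⌋₊ with hN
  refine ⟨N, ((le_max_left _ _).trans hp).trans (Nat.le_add_right _ _), ?_⟩
  have hNC : N ≤ C * p := by
    have h4 : (N : ℝ) ≤ C * p := by
      rw [hN]
      push_cast
      have h5 := Nat.floor_le (show 0 ≤ ε * (p : ℝ) by positivity)
      have h6 : (1 + ε) * (p : ℝ) ≤ C * p := by gcongr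
      linarith
    exact_mod_cast h4
  have h7 := count_prime (N := N) hb ((le_max_left _ _).trans e2) hm3 hm1 (by omega)
  have h8 : (Nat.primeCounting N : ℝ) ≤ Mc u N + Nat.primeCounting p := by exact_mod_cast h7
  have hπ : (0 : ℝ) < Nat.primeCounting N := by
    have h9 : Nat.primeCounting 2 ≤ Nat.primeCounting N :=
      Nat.monotone_primeCounting (((le_max_right _ _).trans e2).trans (Nat.le_add_right _ _))
    have h10 : Nat.primeCounting 2 = 1 := by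
      rw [pc_eq]
      decide
    have : 0 < Nat.primeCounting N := by omega
    exact_mod_cast this
  rw [div_lt_iff₀ hπ] at e1
  rw [le_div_iff₀ hπ]
  linarith

lemma dimH_diff_countable {s t : Set ℝ} (ht : t.Countable) : dimH s ≤ dimH (s \ t) := by
  calc dimH s ≤ dimH ((s \ t) ∪ t) := dimH_mono (by intro x hx; by_cases h : x ∈ t; exacts [Or.inr h, Or.inl ⟨hx, h⟩])
    _ = max (dimH (s \ t)) (dimH t) := dimH_union _ _
    _ = dimH (s \ t) := by rw [ht.dimH_zero]; exact max_eq_left zero_le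

lemma countable_adic (b : ℕ) : {y : ℝ | ∃ (p : ℕ) (k : ℤ), y * (b : ℝ) ^ p = k}.Countable ∨ b = 0 := by
  by_cases hb : b = 0
  · exact Or.inr hb
  · left
    have : {y : ℝ | ∃ (p : ℕ) (k : ℤ), y * (b : ℝ) ^ p = k} ⊆
        Set.range (fun x : ℕ × ℤ => (x.2 : ℝ) / (b : ℝ) ^ x.1) := by
      rintro y ⟨p, k, h⟩
      refine ⟨(p, k), ?_⟩
      have hb0 : (b : ℝ) ≠ 0 := by exact_mod_cast hb
      simp only
      rw [← h]
      field_simp
    exact (Set.countable_range _).mono this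

/-- a cell in an interval -/
lemma exists_cell {b : ℕ} (hb : 2 ≤ b) {s t : ℝ} (hst : s < t) :
    ∃ (L : ℕ) (m : ℤ), ∀ y : ℝ, ⌊y * (b : ℝ) ^ L⌋ = m → y ∈ Set.Ioo s t := by
  have hb1 : (1 : ℝ) < b := by
    have : (2 : ℝ) ≤ b := by exact_mod_cast hb
    linarith
  obtain ⟨L, hL⟩ := pow_unbounded_of_one_lt (2 / (t - s)) hb1
  have hbL : (0 : ℝ) < (b : ℝ) ^ L := by positivity
  rw [div_lt_iff₀ (by linarith)] at hL
  refine ⟨L, ⌊s * (b : ℝ) ^ L⌋ + 1, fun y hy => ?_⟩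
  rw [Int.floor_eq_iff] at hy
  push_cast at hy
  have h1 := Int.floor_le (s * (b : ℝ) ^ L)
  have h2 := Int.lt_floor_add_one (s * (b : ℝ) ^ L)
  constructor
  · have : s * (b : ℝ) ^ L < y * (b : ℝ) ^ L := by linarith [hy.1]
    exact lt_of_mul_lt_mul_right this hbL.le
  · have : y * (b : ℝ) ^ L < t * (b : ℝ) ^ L := by nlinarith [hy.2]
    exact lt_of_mul_lt_mul_right this hbL.le

/-- from runs to the statement about dimensions -/
theorem dim_gen {b : ℕ} (hb : 2 ≤ b) {u : ℝ → ℕ → ℕ} {σ : ℝ} (hσ : σ = 1 ∨ σ = -1) {s t : ℝ}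
    (hst : s < t)
    (hfreq : ∀ C : ℕ, 1 ≤ C → ∀ᵐ y : ℝ, σ * y ∈ Set.Ioo s t → ∃ᶠ p in atTop, ⌊y * (b : ℝ) ^ p⌋ ∈ GG C p)
    (hrun : ∀ y : ℝ, σ * y ∈ Set.Ioo s t → (∀ (p : ℕ) (k : ℤ), y * (b : ℝ) ^ p ≠ k) → ∀ p w : ℕ,
      Int.fract (y * (b : ℝ) ^ p) < ((b : ℝ) ^ (w + 1))⁻¹ →
      ∀ q, p ≤ q → q ≤ p + w → u (σ * y) q = ⌊y * (b : ℝ) ^ p⌋.natAbs * b ^ (q - p))
    {δ : ℝ} (hδ0 : 0 ≤ δ) (hδ1 : δ < 1) :
    ENNReal.ofReal (1 - δ) ≤ dimH {β : ℝ | β ∈ Set.Ioo s t ∧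
      δ ≤ limsup (fun n : ℕ => (Mc (u β) n : ℝ) / Nat.primeCounting n) atTop} := by
  rcases hδ0.eq_or_lt with h0 | h0
  · subst h0
    have h1 : {β : ℝ | β ∈ Set.Ioo s t ∧
      0 ≤ limsup (fun n : ℕ => (Mc (u β) n : ℝ) / Nat.primeCounting n) atTop} = Set.Ioo s t := by
      ext β
      refine ⟨fun h => h.1, fun h => ⟨h, ?_⟩⟩
      exact le_limsup_ratio fun η hη => (Eventually.frequently (Eventually.of_forall fun n =>
        hη.le.trans (ratio_nonneg _ n)))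
    rw [h1, sub_zero, Real.dimH_of_nonempty_interior (by rw [isOpen_Ioo.interior_eq]; exact Set.nonempty_Ioo.2 hst)]
    simp
  · set ε := δ / (1 - δ) with hε
    have hδ2 : 0 < 1 - δ := by linarith
    have hε0 : 0 < ε := div_pos h0 hδ2
    have e1 : 1 / (1 + ε) = 1 - δ := by
      rw [hε]
      field_simp
      ring
    have e2 : ε / (1 + ε) = δ := by
      rw [hε]
      field_simp
      ring
    obtain ⟨C, hC⟩ := exists_nat_ge (1 + ε)
    have hC1 : 1 ≤ C := by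
      have : (1 : ℝ) ≤ C := by linarith
      exact_mod_cast this
    have hσ0 : σ * σ = 1 := by rcases hσ with h | h <;> rw [h] <;> norm_num
    -- the interval of the `y`
    obtain ⟨s', t', hst', hy'⟩ : ∃ s' t' : ℝ, s' < t' ∧ ∀ y ∈ Set.Ioo s' t', σ * y ∈ Set.Ioo s t := by
      rcases hσ with h | h
      · exact ⟨s, t, hst, fun y hy => by rw [h, one_mul]; exact hy⟩
      · refine ⟨-t, -s, by linarith, fun y hy => ?_⟩
        rw [h]
        constructor <;> linarith [hy.1, hy.2]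
    obtain ⟨L0, m0, hcell⟩ := exists_cell hb hst'
    have hmain := shrink_dim hb (G := GG C) (m0 := m0) (L0 := L0) (by
      filter_upwards [hfreq C hC1] with y hy hym
      exact hy (hy' _ (hcell y hym))) hε0
    rw [e1] at hmain
    have hcount := (countable_adic b).resolve_right (by omega)
    refine (hmain.trans (dimH_diff_countable hcount)).trans ?_
    -- the reflection
    have hiso : Isometry (fun y : ℝ => σ * y) := by
      refine Isometry.of_dist_eq fun x y => ?_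
      rw [Real.dist_eq, Real.dist_eq, ← mul_sub, abs_mul]
      have : |σ| = 1 := by rcases hσ with h | h <;> rw [h] <;> norm_num
      rw [this, one_mul]
    rw [← hiso.dimH_image]
    refine dimH_mono ?_
    rintro _ ⟨y, ⟨⟨hy1, hy2⟩, hy3⟩, rfl⟩
    have hya := hy' _ (hcell y hy1)
    refine ⟨hya, ?_⟩
    rw [← e2]
    have hna : ∀ (p : ℕ) (k : ℤ), y * (b : ℝ) ^ p ≠ k := fun p k h => hy3 ⟨p, k, h⟩
    refine upper_of_runs hb hε0 hC (hy2.mono fun p hp => ?_)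
    exact ⟨_, hp.1.2.1, hp.1.2.2, hrun y hya hna p _ hp.2⟩

/-- **Exceptional amplitudes**, largest integers below `β b ^ p`. -/
theorem dim_A {b : ℕ} (hb : 2 ≤ b) {δ : ℝ} (hδ0 : 0 ≤ δ) (hδ1 : δ < 1) {s t : ℝ} (hs : 0 ≤ s)
    (hst : s < t) : ENNReal.ofReal (1 - δ) ≤ dimH {β : ℝ | β ∈ Set.Ioo s t ∧
      δ ≤ limsup (fun n : ℕ => (Mc (uA b β) n : ℝ) / Nat.primeCounting n) atTop} := by
  refine dim_gen hb (u := uA b) (σ := 1) (Or.inl rfl) hst (fun C hC => ?_) ?_ hδ0 hδ1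
  · filter_upwards [freq_pos hb hC] with y hy hys
    rw [one_mul] at hys
    exact hy (by linarith [hys.1])
  · intro y hy hna p w hf q hq1 hq2
    rw [one_mul] at hy ⊢
    have hb0 := bpos hb
    have hy0 : 0 < y := by linarith [hy.1]
    have hbp : (0 : ℝ) < (b : ℝ) ^ p := by positivity
    have hyp : 0 < y * (b : ℝ) ^ p := by positivity
    have h1 : (⌊y * (b : ℝ) ^ p⌋.natAbs : ℤ) = ⌊y * (b : ℝ) ^ p⌋ :=
      Int.natAbs_of_nonneg (Int.floor_nonneg.2 hyp.le)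
    have h2 : ((⌊y * (b : ℝ) ^ p⌋.natAbs : ℕ) : ℝ) = ⌊y * (b : ℝ) ^ p⌋ := by
      rw [← Int.cast_natCast, h1]
    have h3 : (⌊y * (b : ℝ) ^ p⌋ : ℝ) < y * (b : ℝ) ^ p :=
      lt_of_le_of_ne (Int.floor_le _) (fun e => hna p _ e.symm)
    refine run_A hb (w := w + 1) ⟨?_, ?_⟩ hq1 (by omega)
    · rw [div_lt_iff₀ hbp, h2]
      exact h3
    · rw [lt_div_iff₀ hbp, h2]
      unfold Int.fract at hf
      linarith

/-- **Exceptional amplitudes**, smallest integers above `β b ^ p`. -/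
theorem dim_B {b : ℕ} (hb : 2 ≤ b) {δ : ℝ} (hδ0 : 0 ≤ δ) (hδ1 : δ < 1) {s t : ℝ} (hs : 0 ≤ s)
    (hst : s < t) : ENNReal.ofReal (1 - δ) ≤ dimH {β : ℝ | β ∈ Set.Ioo s t ∧
      δ ≤ limsup (fun n : ℕ => (Mc (uB b β) n : ℝ) / Nat.primeCounting n) atTop} := by
  refine dim_gen hb (u := uB b) (σ := -1) (Or.inr rfl) hst (fun C hC => ?_) ?_ hδ0 hδ1
  · filter_upwards [freq_neg hb hC] with y hy hys
    exact hy (by linarith [hys.1])
  · intro y hy hna p w hf q hq1 hq2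
    have hb0 := bpos hb
    have hy0 : y < 0 := by linarith [hy.1]
    have hbp : (0 : ℝ) < (b : ℝ) ^ p := by positivity
    have hyp : y * (b : ℝ) ^ p < 0 := mul_neg_of_neg_of_pos hy0 hbp
    have h3 : (⌊y * (b : ℝ) ^ p⌋ : ℝ) < y * (b : ℝ) ^ p :=
      lt_of_le_of_ne (Int.floor_le _) (fun e => hna p _ e.symm)
    have h6 : ⌊y * (b : ℝ) ^ p⌋ < 0 := by
      have : (⌊y * (b : ℝ) ^ p⌋ : ℝ) < 0 := h3.trans hyp
      exact_mod_cast this
    have h1 : (⌊y * (b : ℝ) ^ p⌋.natAbs : ℤ) = -⌊y * (b : ℝ) ^ p⌋ := by omega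
    have h2 : ((⌊y * (b : ℝ) ^ p⌋.natAbs : ℕ) : ℝ) = -⌊y * (b : ℝ) ^ p⌋ := by
      have := congrArg (Int.cast : ℤ → ℝ) h1
      rw [Int.cast_natCast, Int.cast_neg] at this
      exact this
    refine run_B hb (w := w + 1) (by omega) ⟨?_, ?_⟩ hq1 (by omega)
    · rw [div_lt_iff₀ hbp, h2]
      unfold Int.fract at hf
      linarith
    · rw [lt_div_iff₀ hbp, h2]
      linarith

end Pool.Agent.Q43.EX
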