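import Pool.Agent.Q43.EX.Run

/-!
# Generic amplitudes
-/

set_option autoImplicit false

namespace Pool.Agent.Q43.EX

open MeasureTheory Filter Topology
open Pool.Agent.H305R2

lemma ratio_le_one (u : ℕ → ℕ) (n : ℕ) : (Mc u n : ℝ) / Nat.primeCounting n ≤ 1 := by
  have h : (Mc u n : ℝ) ≤ Nat.primeCounting n := by exact_mod_cast Mc_le u n
  exact div_le_one_of_le₀ h (Nat.cast_nonneg _)

lemma ratio_nonneg (u : ℕ → ℕ) (n : ℕ) : 0 ≤ (Mc u n : ℝ) / Nat.primeCounting n := by positivity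

lemma bdd_ratio (u : ℕ → ℕ) :
    IsBoundedUnder (· ≤ ·) atTop (fun n : ℕ => (Mc u n : ℝ) / Nat.primeCounting n) :=
  isBoundedUnder_of ⟨1, ratio_le_one u⟩

/-- a lower bound for the upper density -/
lemma le_limsup_ratio {u : ℕ → ℕ} {δ : ℝ} (h : ∀ η < δ, ∃ᶠ n in atTop, η ≤ (Mc u n : ℝ) / Nat.primeCounting n) :
    δ ≤ limsup (fun n : ℕ => (Mc u n : ℝ) / Nat.primeCounting n) atTop := by
  refine le_of_forall_lt_imp_le_of_dense fun η hη => ?_
  exact le_limsup_of_frequently_le (h η hη) (bdd_ratio u)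

lemma limsup_ratio_le (u : ℕ → ℕ) :
    limsup (fun n : ℕ => (Mc u n : ℝ) / Nat.primeCounting n) atTop ≤ 1 :=
  limsup_le_of_le ⟨0, fun a ha => by
    obtain ⟨n, hn⟩ := (eventually_map.1 ha).exists
    exact (ratio_nonneg u n).trans hn⟩ (Eventually.of_forall (ratio_le_one u))

/-- **Generic amplitudes.** -/
theorem generic {b : ℕ} (hb : 2 ≤ b) (u : ℝ → ℕ → ℕ) (R : ℕ → ℕ → ℕ → Set ℝ)
    (hRo : ∀ m p w, IsOpen (R m p w))
    (hRu : ∀ m p w, 1 ≤ m → ∀ β ∈ R m p w, ∀ q, p ≤ q → q ≤ p + w → u β q = m * b ^ (q - p))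
    (hRt : ∀ m p w : ℕ, ∀ s t : ℝ, s < (m : ℝ) / (b : ℝ) ^ p → (m : ℝ) / (b : ℝ) ^ p < t →
      (R m p w ∩ Set.Ioo s t).Nonempty)
    {f : ℕ → ℝ} (hf : Tendsto f atTop atTop) :
    {β : ℝ | 0 < β → limsup (fun n : ℕ => (Mc (u β) n : ℝ) / Nat.primeCounting n) atTop = 1 ∧
      ∀ ε : ℝ, 0 < ε → ∃ᶠ n in atTop, (Mc (u β) n : ℝ) < ε * f n} ∈ residual ℝ := by
  have hb2 : (2 : ℝ) ≤ b := by exact_mod_cast hb
  have hb0 : (0 : ℝ) < b := by linarith
  -- the open sets
  obtain ⟨A, hA⟩ : ∃ A : ℕ → ℕ → ℕ → ℕ → Prop, A = fun (j m p N : ℕ) =>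
    m.Prime ∧ b ≤ p ∧ p ≤ N ∧ N < m ∧ (j : ℝ) * p ≤ Nat.primeCounting N ∧ j ≤ p := ⟨_, rfl⟩
  obtain ⟨B, hB⟩ : ∃ B : ℕ → ℕ → ℕ → ℕ → Prop, B = fun (j k p N : ℕ) =>
    1 ≤ k ∧ b ≤ p ∧ p ≤ N ∧ (j : ℝ) * p ≤ f N ∧ j ≤ p := ⟨_, rfl⟩
  obtain ⟨U, hU⟩ : ∃ U : ℕ → Set ℝ, U = fun j => {x | x < 0} ∪
    ⋃ (m : ℕ) (p : ℕ) (N : ℕ) (_ : A j m p N), R m p (N - p) := ⟨_, rfl⟩
  obtain ⟨V, hV⟩ : ∃ V : ℕ → Set ℝ, V = fun j => {x | x < 0} ∪
    ⋃ (k : ℕ) (p : ℕ) (N : ℕ) (_ : B j k p N), R (k ^ 2) p (N - p) := ⟨_, rfl⟩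
  have hUo : ∀ j, IsOpen (U j) := by
    intro j
    rw [hU]
    exact (isOpen_gt' (0 : ℝ)).union (isOpen_iUnion fun m => isOpen_iUnion fun p =>
      isOpen_iUnion fun N => isOpen_iUnion fun _ => hRo _ _ _)
  have hVo : ∀ j, IsOpen (V j) := by
    intro j
    rw [hV]
    exact (isOpen_gt' (0 : ℝ)).union (isOpen_iUnion fun m => isOpen_iUnion fun p =>
      isOpen_iUnion fun N => isOpen_iUnion fun _ => hRo _ _ _)
  -- density from the positive intervals
  have hdense : ∀ Z : Set ℝ, (∀ x, x < 0 → x ∈ Z) →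
      (∀ s t : ℝ, 0 < s → s < t → (Z ∩ Set.Ioo s t).Nonempty) → Dense Z := by
    intro Z hZ1 hZ2
    rw [dense_iff_inter_open]
    intro O hO ⟨v, hv⟩
    obtain ⟨ε, hε, hball⟩ := Metric.isOpen_iff.1 hO v hv
    by_cases hv0 : v < 0
    · exact ⟨v, hv, hZ1 v hv0⟩
    · push Not at hv0
      obtain ⟨z, hz1, hz2⟩ := hZ2 (v + ε / 4) (v + ε / 2) (by linarith) (by linarith)
      refine ⟨z, hball ?_, hz1⟩
      rw [Metric.mem_ball, Real.dist_eq, abs_lt]
      constructor <;> linarith [hz2.1, hz2.2]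
  have hxt : ∀ s : ℝ, 0 < s → Tendsto (fun p : ℕ => s * (b : ℝ) ^ p) atTop atTop := fun s hs =>
    (tendsto_pow_atTop_atTop_of_one_lt (by linarith)).const_mul_atTop hs
  have hUd : ∀ j, Dense (U j) := by
    intro j
    refine hdense _ (fun x hx => by rw [hU]; exact Or.inl hx) fun s t hs hst => ?_
    obtain ⟨N0, hN0⟩ := Pool.Agent.H119R2.Kp.prime_between ((t - s) / s) (div_pos (by linarith) hs)
    have hgrow : ∀ᶠ p : ℕ in atTop, (p : ℝ) + 2 ≤ s * (b : ℝ) ^ p := by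
      have h4 := tendsto_pow_const_div_const_pow_of_one_lt 1 (show (1 : ℝ) < b by linarith)
      have h5 := h4.eventually_le_const (show (0 : ℝ) < s / 2 by linarith)
      filter_upwards [h5, (hxt s hs).eventually (eventually_ge_atTop 4)] with p h6 h7
      rw [pow_one, div_le_iff₀ (by positivity)] at h6
      linarith
    obtain ⟨p, hp1, hp2, hp3, hp4⟩ := ((hxt s hs).eventually (eventually_ge_atTop (N0 : ℝ))
      |>.and ((pi_large hb hs j).and (hgrow.and (eventually_ge_atTop (max b j))))).exists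
    have hbp : (0 : ℝ) < (b : ℝ) ^ p := by positivity
    obtain ⟨m, hm, hm1, hm2⟩ := hN0 _ hp1
    have hm3 : (m : ℝ) < t * (b : ℝ) ^ p := by
      have : (1 + (t - s) / s) * (s * (b : ℝ) ^ p) = t * (b : ℝ) ^ p := by
        field_simp
        ring
      rwa [this] at hm2
    have hfl : ⌊s * (b : ℝ) ^ p⌋₊ ≤ m - 1 := by
      have h1 : (⌊s * (b : ℝ) ^ p⌋₊ : ℝ) < m := (Nat.floor_le (by positivity)).trans_lt hm1
      have h2 : ⌊s * (b : ℝ) ^ p⌋₊ < m := by exact_mod_cast h1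
      omega
    have hpm : p + 2 ≤ m := by
      have : ((p + 2 : ℕ) : ℝ) < m := by push_cast; linarith
      exact le_of_lt (by exact_mod_cast this)
    obtain ⟨β, hβ1, hβ2⟩ := hRt m p (m - 1 - p) s t (by rw [lt_div_iff₀ hbp]; exact hm1)
      (by rw [div_lt_iff₀ hbp]; exact hm3)
    refine ⟨β, ?_, hβ2⟩
    rw [hU]
    refine Or.inr (Set.mem_iUnion.2 ⟨m, Set.mem_iUnion.2 ⟨p, Set.mem_iUnion.2 ⟨m - 1,
      Set.mem_iUnion.2 ⟨?_, hβ1⟩⟩⟩⟩)
    rw [hA]
    refine ⟨hm, (le_max_left _ _).trans hp4, by omega, by omega, hp2.trans ?_,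
      (le_max_right _ _).trans hp4⟩
    exact_mod_cast Nat.monotone_primeCounting hfl
  have hVd : ∀ j, Dense (V j) := by
    intro j
    refine hdense _ (fun x hx => by rw [hV]; exact Or.inl hx) fun s t hs hst => ?_
    -- a square in the interval
    have hsq : ∀ᶠ x : ℝ in atTop, 2 * Real.sqrt x + 1 < (t / s - 1) * x := by
      have h0 : 0 < t / s - 1 := by
        rw [sub_pos, lt_div_iff₀ hs]
        linarith
      have h1 : Tendsto (fun x : ℝ => Real.sqrt x) atTop atTop := Real.tendsto_sqrt_atTop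
      filter_upwards [h1.eventually (eventually_gt_atTop (3 / (t / s - 1))),
        h1.eventually (eventually_ge_atTop 1), eventually_gt_atTop 0] with x h2 h3 h4
      rw [div_lt_iff₀ h0] at h2
      have h5 : Real.sqrt x * Real.sqrt x = x := Real.mul_self_sqrt h4.le
      calc 2 * Real.sqrt x + 1 ≤ 3 * Real.sqrt x := by linarith
        _ < (Real.sqrt x * (t / s - 1)) * Real.sqrt x := by nlinarith
        _ = (t / s - 1) * x := by rw [mul_comm (Real.sqrt x) (t / s - 1), mul_assoc, h5]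
    obtain ⟨p, hp1, hp2, hp3⟩ := ((hxt s hs).eventually hsq |>.and
      (((hxt s hs).eventually (eventually_gt_atTop 0)).and (eventually_ge_atTop (max b j)))).exists
    have hbp : (0 : ℝ) < (b : ℝ) ^ p := by positivity
    set x := s * (b : ℝ) ^ p with hx
    obtain ⟨k, hk⟩ : ∃ k : ℕ, k = ⌊Real.sqrt x⌋₊ + 1 := ⟨_, rfl⟩
    have hs5 : Real.sqrt x * Real.sqrt x = x := Real.mul_self_sqrt hp2.le
    have hsx : 0 ≤ Real.sqrt x := Real.sqrt_nonneg x
    have hk1 : Real.sqrt x < k := by rw [hk]; push_cast; exact Nat.lt_floor_add_one _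
    have hk2 : (k : ℝ) ≤ Real.sqrt x + 1 := by
      rw [hk]
      push_cast
      linarith [Nat.floor_le hsx]
    have hlo : x < ((k ^ 2 : ℕ) : ℝ) := by
      push_cast
      nlinarith
    have hup : ((k ^ 2 : ℕ) : ℝ) < t * (b : ℝ) ^ p := by
      have h1 : ((k ^ 2 : ℕ) : ℝ) ≤ x + (2 * Real.sqrt x + 1) := by
        push_cast
        nlinarith
      have h2 : x + (t / s - 1) * x = t * (b : ℝ) ^ p := by
        rw [hx]
        field_simp
        ring
      linarith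
    obtain ⟨N, hN1, hN2⟩ := ((hf.eventually_ge_atTop ((j : ℝ) * p)).and (eventually_ge_atTop p)).exists
    obtain ⟨β, hβ1, hβ2⟩ := hRt (k ^ 2) p (N - p) s t (by rw [lt_div_iff₀ hbp]; exact hlo)
      (by rw [div_lt_iff₀ hbp]; exact hup)
    refine ⟨β, ?_, hβ2⟩
    rw [hV]
    refine Or.inr (Set.mem_iUnion.2 ⟨k, Set.mem_iUnion.2 ⟨p, Set.mem_iUnion.2 ⟨N,
      Set.mem_iUnion.2 ⟨?_, hβ1⟩⟩⟩⟩)
    rw [hB]
    exact ⟨by omega, (le_max_left _ _).trans hp3, hN2, hN1, (le_max_right _ _).trans hp3⟩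
  -- the intersection
  have h1 : ⋂ j, U j ∈ residual ℝ := countable_iInter_mem.2 fun j => residual_of_dense_open (hUo j) (hUd j)
  have h2 : ⋂ j, V j ∈ residual ℝ := countable_iInter_mem.2 fun j => residual_of_dense_open (hVo j) (hVd j)
  filter_upwards [h1, h2] with β hβ1 hβ2 hβ0
  rw [Set.mem_iInter] at hβ1 hβ2
  constructor
  · refine le_antisymm (limsup_ratio_le _) (le_limsup_ratio fun η hη => ?_)
    rw [frequently_atTop]
    intro a
    obtain ⟨j, hj⟩ := exists_nat_gt (max (a : ℝ) (max 1 (1 / (1 - η))))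
    have hja : (a : ℝ) < j := (le_max_left _ _).trans_lt hj
    have hj1 : (1 : ℝ) < j := ((le_max_left _ _).trans (le_max_right _ _)).trans_lt hj
    have hjη : 1 / (1 - η) < j := ((le_max_right _ _).trans (le_max_right _ _)).trans_lt hj
    have hj0 : (0 : ℝ) < j := by linarith
    have h3 := hβ1 j
    rw [hU] at h3
    rcases h3 with h3 | h3
    · exact absurd hβ0 (not_lt.2 (le_of_lt h3))
    obtain ⟨m, h3⟩ := Set.mem_iUnion.1 h3
    obtain ⟨p, h3⟩ := Set.mem_iUnion.1 h3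
    obtain ⟨N, h3⟩ := Set.mem_iUnion.1 h3
    obtain ⟨hAA, h3⟩ := Set.mem_iUnion.1 h3
    rw [hA] at hAA
    obtain ⟨a1, a2, a3, a4, a5, a6⟩ := hAA
    have haj : a < j := by exact_mod_cast hja
    refine ⟨N, by omega, ?_⟩
    have hpm : p < m := by omega
    have hrp : roughPart p m = m := by
      have := roughPart_mul (p := p) (s := 1) (q := m) ⟨by simp, by simp⟩ a1 hpm
      rwa [one_mul] at this
    have h4 := count_prime (N := N) hb a2 (u := u β) (fun q hq1 hq2 => hRu m p (N - p) a1.one_lt.le β h3 q hq1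
      (by omega)) (by rw [hrp]; exact a1) (by rw [hrp]; exact a4)
    have h5 : (Nat.primeCounting N : ℝ) ≤ Mc (u β) N + Nat.primeCounting p := by exact_mod_cast h4
    have h6 : Nat.primeCounting p ≤ p := by
      rw [pc_eq]
      have h7 : (Finset.range (p + 1)).filter (fun q => q.Prime) ⊆ Finset.Icc 1 p := by
        intro q hq
        rw [Finset.mem_filter, Finset.mem_range] at hq
        rw [Finset.mem_Icc]
        exact ⟨hq.2.one_lt.le, by omega⟩
      simpa using Finset.card_le_card h7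
    have h6' : (Nat.primeCounting p : ℝ) ≤ p := by exact_mod_cast h6
    have hp0 : (0 : ℝ) < p := by
      have : 0 < p := by omega
      exact_mod_cast this
    have hπ : (0 : ℝ) < Nat.primeCounting N := lt_of_lt_of_le (by positivity) a5
    rw [le_div_iff₀ hπ]
    have h8 : (p : ℝ) ≤ (1 - η) * Nat.primeCounting N := by
      have h9 : 1 < j * (1 - η) := by
        rw [div_lt_iff₀ (by linarith)] at hjη
        exact hjη
      have h10 : 0 < 1 - η := by linarith
      calc (p : ℝ) ≤ (j * (1 - η)) * p := by nlinarith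
        _ = (1 - η) * (j * p) := by ring
        _ ≤ _ := by gcongr
    linarith
  · have hfpos : ∀ᶠ n in atTop, 0 < f n := hf.eventually_gt_atTop 0
    have hfr : ∀ η : ℝ, 0 < η → ∃ᶠ n in atTop, (Mc (u β) n : ℝ) / f n ≤ η := by
      intro η hη
      rw [frequently_atTop]
      intro a
      obtain ⟨j, hj⟩ := exists_nat_gt (max (a : ℝ) (max 1 (1 / η)))
      have hja : (a : ℝ) < j := (le_max_left _ _).trans_lt hj
      have hj1 : (1 : ℝ) < j := ((le_max_left _ _).trans (le_max_right _ _)).trans_lt hj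
      have hjη : 1 / η < j := ((le_max_right _ _).trans (le_max_right _ _)).trans_lt hj
      have h3 := hβ2 j
      rw [hV] at h3
      rcases h3 with h3 | h3
      · exact absurd hβ0 (not_lt.2 (le_of_lt h3))
      obtain ⟨k, h3⟩ := Set.mem_iUnion.1 h3
      obtain ⟨p, h3⟩ := Set.mem_iUnion.1 h3
      obtain ⟨N, h3⟩ := Set.mem_iUnion.1 h3
      obtain ⟨hBB, h3⟩ := Set.mem_iUnion.1 h3
      rw [hB] at hBB
      obtain ⟨a1, a2, a3, a4, a5⟩ := hBB
      have haj : a < j := by exact_mod_cast hja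
      refine ⟨N, by omega, ?_⟩
      have hk1 : 1 ≤ k ^ 2 := Nat.one_le_pow _ _ a1
      have h4 := count_sq (N := N) (k := k) hb a2 (u := u β) (fun q hq1 hq2 => hRu (k ^ 2) p (N - p) hk1 β h3 q hq1
        (by omega))
      have h5 : (Mc (u β) N : ℝ) ≤ p := by exact_mod_cast h4
      have hp0 : (0 : ℝ) < p := by
        have : 0 < p := by omega
        exact_mod_cast this
      have hfN : 0 < f N := lt_of_lt_of_le (by positivity) a4
      rw [div_le_iff₀ hfN]
      rw [div_lt_iff₀ hη] at hjη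
      calc (Mc (u β) N : ℝ) ≤ p := h5
        _ ≤ (j * η) * p := by nlinarith
        _ = η * (j * p) := by ring
        _ ≤ η * f N := by gcongr
    intro ε hε
    refine ((hfr (ε / 2) (by linarith)).and_eventually hfpos).mono fun n hn => ?_
    obtain ⟨h1, h2⟩ := hn
    rw [div_le_iff₀ h2] at h1
    nlinarith

end Pool.Agent.Q43.EX
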