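import Mathlib
import Pool.Agent.H305R2.Rough
import Pool.Agent.H119R2.Kp.NT
import Pool.Agent.Q43.BA.Pnt

/-!
# Values after a run of zeros
-/

set_option autoImplicit false

namespace Pool.Agent.Q43.EX

open MeasureTheory Filter Topology
open Pool.Agent.H305R2

open Classical in
/-- the number of the primes `q ≤ n` for which the `q`-rough part of `u q` is prime -/
noncomputable def Mc (u : ℕ → ℕ) (n : ℕ) : ℕ :=
  ((Finset.range (n + 1)).filter (fun q => q.Prime ∧ (roughPart q (u q)).Prime)).card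

lemma pc_eq (n : ℕ) : Nat.primeCounting n = ((Finset.range (n + 1)).filter (fun q => q.Prime)).card := by
  unfold Nat.primeCounting Nat.primeCounting'
  rw [Nat.count_eq_card_filter_range]

lemma Mc_le (u : ℕ → ℕ) (n : ℕ) : Mc u n ≤ Nat.primeCounting n := by
  classical
  rw [pc_eq]
  exact Finset.card_le_card (fun q hq => by
    rw [Finset.mem_filter] at hq ⊢
    exact ⟨hq.1, hq.2.1⟩)

lemma smooth_pow {b q : ℕ} (hb : 2 ≤ b) (hbq : b ≤ q) (j : ℕ) : b ^ j ∈ SM q := by
  induction j with
  | zero => exact ⟨by simp, by simp⟩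
  | succ j ih =>
    rw [pow_succ]
    exact Nat.mul_mem_smoothNumbers ih (Nat.mem_smoothNumbers_of_lt (by omega) (by omega))

lemma rp_run {b p q m : ℕ} (hb : 2 ≤ b) (hbp : b ≤ p) (hpq : p ≤ q) (h : (roughPart p m).Prime)
    (hq : q < roughPart p m) (j : ℕ) : roughPart q (m * b ^ j) = roughPart p m := by
  obtain ⟨-, s, hs, he⟩ := roughPart_prime h
  have h1 : m * b ^ j = (s * b ^ j) * roughPart p m := by
    conv_lhs => rw [he]
    ring
  rw [h1]
  refine roughPart_mul ?_ h hq
  exact Nat.mul_mem_smoothNumbers (Nat.smoothNumbers_mono (by omega) hs) (smooth_pow hb (by omega) j)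

lemma rp_sq {b q k : ℕ} (hb : 2 ≤ b) (hbq : b ≤ q) (j : ℕ) : ¬ (roughPart q (k ^ 2 * b ^ j)).Prime := by
  intro h
  obtain ⟨h1, s, hs, he⟩ := roughPart_prime h
  set P := roughPart q (k ^ 2 * b ^ j) with hP
  have hd : P ∣ k ^ 2 * b ^ j := by rw [he]; exact dvd_mul_left _ _
  have hk : P ∣ k := by
    rcases (Nat.Prime.dvd_mul h).1 hd with h2 | h2
    · exact h.dvd_of_dvd_pow h2
    · have := Nat.le_of_dvd (by omega) (h.dvd_of_dvd_pow h2)
      omega
  have h3 : P * P ∣ s * P := by
    rw [← he, ← sq]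
    exact (pow_dvd_pow_of_dvd hk 2).mul_right _
  have h4 : P ∣ s := Nat.dvd_of_mul_dvd_mul_right h.pos h3
  have h5 := hs.2 P ((Nat.mem_primeFactorsList hs.1).2 ⟨h, h4⟩)
  omega

/-- a run of zeros after a prime value -/
lemma count_prime {b p N m : ℕ} (hb : 2 ≤ b) (hbp : b ≤ p) {u : ℕ → ℕ}
    (hu : ∀ q, p ≤ q → q ≤ N → u q = m * b ^ (q - p)) (h : (roughPart p m).Prime)
    (hN : N < roughPart p m) : Nat.primeCounting N ≤ Mc u N + Nat.primeCounting p := by
  classical
  rw [pc_eq, pc_eq]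
  have hsub : (Finset.range (N + 1)).filter (fun q => q.Prime) ⊆
      (Finset.range (N + 1)).filter (fun q => q.Prime ∧ (roughPart q (u q)).Prime) ∪
        (Finset.range (p + 1)).filter (fun q => q.Prime) := by
    intro q hq
    rw [Finset.mem_filter, Finset.mem_range] at hq
    rw [Finset.mem_union, Finset.mem_filter, Finset.mem_filter, Finset.mem_range, Finset.mem_range]
    by_cases hqp : q < p + 1
    · exact Or.inr ⟨hqp, hq.2⟩
    · refine Or.inl ⟨hq.1, hq.2, ?_⟩
      rw [hu q (by omega) (by omega), rp_run hb hbp (by omega) h (by omega)]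
      exact h
  refine (Finset.card_le_card hsub).trans ((Finset.card_union_le _ _).trans ?_)
  unfold Mc
  exact le_rfl

/-- a run of zeros after a perfect square -/
lemma count_sq {b p N k : ℕ} (hb : 2 ≤ b) (hbp : b ≤ p) {u : ℕ → ℕ}
    (hu : ∀ q, p ≤ q → q ≤ N → u q = k ^ 2 * b ^ (q - p)) : Mc u N ≤ p := by
  classical
  unfold Mc
  calc _ ≤ (Finset.range p).card := by
        refine Finset.card_le_card fun q hq => ?_
        rw [Finset.mem_filter, Finset.mem_range] at hq
        rw [Finset.mem_range]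
        by_contra hc
        push Not at hc
        have := hq.2.2
        rw [hu q hc (by omega)] at this
        exact rp_sq hb (by omega) _ this
    _ = p := Finset.card_range p

/-- there are many primes up to `s b ^ p` -/
lemma pi_large {b : ℕ} (hb : 2 ≤ b) {s : ℝ} (hs : 0 < s) (j : ℕ) :
    ∀ᶠ p : ℕ in atTop, (j : ℝ) * p ≤ Nat.primeCounting ⌊s * (b : ℝ) ^ p⌋₊ := by
  have hb2 : (2 : ℝ) ≤ b := by exact_mod_cast hb
  have hlb : 0 < Real.log b := Real.log_pos (by linarith)
  obtain ⟨C, hC, h⟩ := Pool.Agent.Q43.BA.pi_rate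
  have hx : Tendsto (fun p : ℕ => s * (b : ℝ) ^ p) atTop atTop :=
    (tendsto_pow_atTop_atTop_of_one_lt (by linarith)).const_mul_atTop hs
  have h1 : ∀ᶠ x : ℝ in atTop, C / Real.log x ≤ 1 / 2 := by
    have : Tendsto (fun x : ℝ => C / Real.log x) atTop (𝓝 0) :=
      Real.tendsto_log_atTop.const_div_atTop C
    exact this.eventually_le_const (by norm_num)
  -- `log x ≤ 2 p log b`
  have h2 : ∀ᶠ p : ℕ in atTop, Real.log s ≤ p * Real.log b := by
    have : Tendsto (fun p : ℕ => (p : ℝ) * Real.log b) atTop atTop :=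
      (tendsto_natCast_atTop_atTop (R := ℝ)).atTop_mul_const hlb
    exact this.eventually_ge_atTop _
  have h3 : ∀ᶠ p : ℕ in atTop, 4 * j * Real.log b * (p : ℝ) ^ 2 ≤ s * (b : ℝ) ^ p := by
    have h4 := tendsto_pow_const_div_const_pow_of_one_lt 2 (show (1 : ℝ) < b by linarith)
    have h5 := h4.const_mul (4 * j * Real.log b / s)
    rw [mul_zero] at h5
    filter_upwards [h5.eventually_le_const (show (0 : ℝ) < 1 by norm_num)] with p hp
    have hbp : (0 : ℝ) < (b : ℝ) ^ p := by positivity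
    rw [div_mul_div_comm, div_le_one (by positivity)] at hp
    exact hp
  filter_upwards [hx.eventually h1, h2, h3, hx.eventually (eventually_ge_atTop 2),
    hx.eventually (eventually_gt_atTop (Real.exp 1)), eventually_gt_atTop 0] with p e1 e2 e3 e4 e5 e6
  set x := s * (b : ℝ) ^ p with hxd
  have hx0 : 0 < x := by linarith
  have hlx : 0 < Real.log x := Real.log_pos (by linarith)
  have hp0 : (0 : ℝ) < p := by exact_mod_cast e6
  have h6 := abs_le.1 ((h x e4).trans e1)
  have h7 : x / (2 * Real.log x) ≤ Nat.primeCounting ⌊x⌋₊ := by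
    have h8 : 1 / 2 ≤ (Nat.primeCounting ⌊x⌋₊ : ℝ) * Real.log x / x := by linarith [h6.1]
    rw [le_div_iff₀ hx0] at h8
    rw [div_le_iff₀ (by positivity)]
    linarith
  have h9 : Real.log x ≤ 2 * (p * Real.log b) := by
    rw [hxd, Real.log_mul hs.ne' (by positivity), Real.log_pow]
    linarith
  refine le_trans ?_ h7
  rw [le_div_iff₀ (by positivity)]
  calc (j : ℝ) * p * (2 * Real.log x) ≤ j * p * (2 * (2 * (p * Real.log b))) := by gcongr
    _ = 4 * j * Real.log b * (p : ℝ) ^ 2 := by ring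
    _ ≤ x := e3

end Pool.Agent.Q43.EX
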