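import Mathlib

/-!
# Shrunk cylinders

Let `b ≥ 2` and suppose that for almost every positive real `y` there are infinitely many `p` with
`⌊y b ^ p⌋ ∈ G p`.  We prove that the set of `y` in a given cell for which there are infinitely many
`p` with `⌊y b ^ p⌋ ∈ G p` and `fract (y b ^ p) < b ^ (- w p)` has Hausdorff dimension at least
`1 / (1 + ε)` if `ε p ≤ w p ≤ ε p + 1`.
-/

set_option autoImplicit false

namespace Pool.Agent.Q43.EX

open MeasureTheory Filter Topology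
open scoped ENNReal NNReal

/-- two reals with the same floor at level `p` have the same floor at level `q ≤ p` -/
lemma floor_down {b : ℕ} (hb : 2 ≤ b) {y z : ℝ} {q p : ℕ} (hqp : q ≤ p)
    (h : ⌊y * (b : ℝ) ^ p⌋ = ⌊z * (b : ℝ) ^ p⌋) : ⌊y * (b : ℝ) ^ q⌋ = ⌊z * (b : ℝ) ^ q⌋ := by
  have hb0 : (b : ℝ) ≠ 0 := by
    have : (2 : ℝ) ≤ b := by exact_mod_cast hb
    linarith
  have key : ∀ t : ℝ, ⌊t * (b : ℝ) ^ q⌋ = ⌊t * (b : ℝ) ^ p⌋ / ((b ^ (p - q) : ℕ) : ℤ) := by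
    intro t
    rw [← Int.floor_div_natCast]
    congr 1
    push_cast
    rw [eq_div_iff (pow_ne_zero _ hb0), mul_assoc, ← pow_add]
    congr 2
    omega
  rw [key, key, h]

/-- A state: the output so far is the integer `m` with `L` digits, `n` input digits are used. -/
structure St where
  m : ℤ
  L : ℕ
  n : ℕ

variable (b : ℕ) (G : ℕ → Set ℤ) (Q w : ℕ → ℕ)

/-- the output if the remaining input digits are copied -/
noncomputable def bt (s : St) (x : ℝ) : ℝ := (s.m + Int.fract (x * (b : ℝ) ^ s.n)) / (b : ℝ) ^ s.L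

/-- a success at level `p` -/
def Suc (s : St) (x : ℝ) (p : ℕ) : Prop := Q s.L ≤ p ∧ ⌊bt b s x * (b : ℝ) ^ p⌋ ∈ G p

open Classical in
/-- the first success -/
noncomputable def pp (s : St) (x : ℝ) : ℕ := if h : ∃ p, Suc b G Q s x p then Nat.find h else 0

/-- the next state: the digits up to the first success are copied, then `w p` zeros follow -/
noncomputable def nxt (s : St) (x : ℝ) : St :=
  ⟨⌊bt b s x * (b : ℝ) ^ (pp b G Q s x)⌋ * (b : ℤ) ^ w (pp b G Q s x),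
    pp b G Q s x + w (pp b G Q s x), s.n + (pp b G Q s x - s.L)⟩

/-- the states -/
noncomputable def orb (s0 : St) (x : ℝ) : ℕ → St
  | 0 => s0
  | j + 1 => nxt b G Q w (orb s0 x j) x

/-- all steps succeed -/
def Good (s0 : St) (x : ℝ) : Prop := ∀ j, ∃ p, Suc b G Q (orb b G Q w s0 x j) x p

variable {b G Q w}

lemma pp_spec {s : St} {x : ℝ} (h : ∃ p, Suc b G Q s x p) : Suc b G Q s x (pp b G Q s x) := by
  classical
  rw [pp, dif_pos h]
  convert Nat.find_spec h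

lemma pp_le {s : St} {x : ℝ} {p : ℕ} (h : Suc b G Q s x p) : pp b G Q s x ≤ p := by
  classical
  rw [pp, dif_pos ⟨p, h⟩]
  convert Nat.find_min' _ h

lemma bpos (hb : 2 ≤ b) : (0 : ℝ) < b := by
  have : (2 : ℝ) ≤ b := by exact_mod_cast hb
  linarith

lemma floor_bt (hb : 2 ≤ b) (s : St) (x : ℝ) {q : ℕ} (hq : s.L ≤ q) :
    ⌊bt b s x * (b : ℝ) ^ q⌋ = s.m * (b : ℤ) ^ (q - s.L) +
      ⌊Int.fract (x * (b : ℝ) ^ s.n) * (b : ℝ) ^ (q - s.L)⌋ := by
  have hb0 : (b : ℝ) ≠ 0 := (bpos hb).ne'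
  have h : bt b s x * (b : ℝ) ^ q = ((s.m * (b : ℤ) ^ (q - s.L) : ℤ) : ℝ) +
      Int.fract (x * (b : ℝ) ^ s.n) * (b : ℝ) ^ (q - s.L) := by
    have h1 : (b : ℝ) ^ q = (b : ℝ) ^ s.L * (b : ℝ) ^ (q - s.L) := by
      rw [← pow_add]
      congr 1
      omega
    rw [bt, h1]
    push_cast
    field_simp
  rw [h, Int.floor_intCast_add]

lemma floor_in (b : ℕ) (x : ℝ) (n k : ℕ) :
    ⌊x * (b : ℝ) ^ (n + k)⌋ = ⌊x * (b : ℝ) ^ n⌋ * (b : ℤ) ^ k +
      ⌊Int.fract (x * (b : ℝ) ^ n) * (b : ℝ) ^ k⌋ := by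
  have h : x * (b : ℝ) ^ (n + k) = ((⌊x * (b : ℝ) ^ n⌋ * (b : ℤ) ^ k : ℤ) : ℝ) +
      Int.fract (x * (b : ℝ) ^ n) * (b : ℝ) ^ k := by
    push_cast
    rw [pow_add, ← mul_assoc, ← add_mul, Int.floor_add_fract]
  rw [h, Int.floor_intCast_add]

lemma floor_bt_L (hb : 2 ≤ b) (s : St) (x : ℝ) : ⌊bt b s x * (b : ℝ) ^ s.L⌋ = s.m := by
  rw [floor_bt hb s x le_rfl]
  simp

/-- the first digits do not change -/
lemma orb_cell (hb : 2 ≤ b) (hQ : ∀ L, L < Q L) {s0 : St} {x : ℝ} (j : ℕ)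
    (hx : ∀ i < j, ∃ p, Suc b G Q (orb b G Q w s0 x i) x p) :
    s0.L ≤ (orb b G Q w s0 x j).L ∧ ⌊bt b (orb b G Q w s0 x j) x * (b : ℝ) ^ s0.L⌋ = s0.m := by
  induction j with
  | zero => exact ⟨le_rfl, floor_bt_L hb s0 x⟩
  | succ j ih =>
    obtain ⟨i1, i2⟩ := ih fun i hi => hx i (by omega)
    set s := orb b G Q w s0 x j with hs
    have h1 := pp_spec (hx j (by omega))
    rw [← hs] at h1
    set p := pp b G Q s x with hp
    have h2 : s.L ≤ p := (hQ _).le.trans h1.1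
    have e : orb b G Q w s0 x (j + 1) = nxt b G Q w s x := rfl
    have eL : (nxt b G Q w s x).L = p + w p := rfl
    refine ⟨by rw [e, eL]; omega, ?_⟩
    rw [e, ← i2]
    refine floor_down hb (show s0.L ≤ p by omega) ?_
    -- the floors at level `p`
    have h3 := floor_bt_L hb (nxt b G Q w s x) x
    rw [eL] at h3
    have h4 : (nxt b G Q w s x).m = ⌊bt b s x * (b : ℝ) ^ p⌋ * (b : ℤ) ^ w p := rfl
    rw [h4] at h3
    have hb0 := bpos hb
    have hbw : (0 : ℝ) < (b : ℝ) ^ w p := by positivity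
    rw [Int.floor_eq_iff] at h3
    push_cast at h3
    rw [Int.floor_eq_iff, ]
    rw [pow_add, ← mul_assoc] at h3
    have hb1 : (1 : ℝ) ≤ (b : ℝ) ^ w p := by
      have : (2 : ℝ) ≤ b := by exact_mod_cast hb
      exact one_le_pow₀ (by linarith)
    constructor
    · exact le_of_mul_le_mul_right h3.1 hbw
    · have h5 := h3.2
      by_contra hcon
      push Not at hcon
      have h6 := mul_le_mul_of_nonneg_right hcon hbw.le
      rw [add_mul, one_mul] at h6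
      linarith

/-- almost every input is good -/
lemma ae_good (hb : 2 ≤ b) (hQ : ∀ L, L < Q L) {s0 : St}
    (hG : ∀ᵐ y : ℝ, ⌊y * (b : ℝ) ^ s0.L⌋ = s0.m → ∃ᶠ p in atTop, ⌊y * (b : ℝ) ^ p⌋ ∈ G p) :
    ∀ᵐ x : ℝ, Good b G Q w s0 x := by
  have hb0 : (b : ℝ) ≠ 0 := (bpos hb).ne'
  -- for all affine images
  have h1 : ∀ᵐ x : ℝ, ∀ (m : ℤ) (L n : ℕ) (k : ℤ),
      ⌊(m + (x * (b : ℝ) ^ n - k)) / (b : ℝ) ^ L * (b : ℝ) ^ s0.L⌋ = s0.m →
      ∃ᶠ p in atTop, ⌊(m + (x * (b : ℝ) ^ n - k)) / (b : ℝ) ^ L * (b : ℝ) ^ p⌋ ∈ G p := by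
    rw [ae_all_iff]; intro m
    rw [ae_all_iff]; intro L
    rw [ae_all_iff]; intro n
    rw [ae_all_iff]; intro k
    rw [ae_iff] at hG ⊢
    set N := {y : ℝ | ¬(⌊y * (b : ℝ) ^ s0.L⌋ = s0.m → ∃ᶠ p in atTop, ⌊y * (b : ℝ) ^ p⌋ ∈ G p)} with hN
    have h2 : {x : ℝ | ¬(⌊(m + (x * (b : ℝ) ^ n - k)) / (b : ℝ) ^ L * (b : ℝ) ^ s0.L⌋ = s0.m →
      ∃ᶠ p in atTop, ⌊(m + (x * (b : ℝ) ^ n - k)) / (b : ℝ) ^ L * (b : ℝ) ^ p⌋ ∈ G p)} =
      (fun x : ℝ => x * ((b : ℝ) ^ n / (b : ℝ) ^ L)) ⁻¹'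
        ((fun x : ℝ => x + (m - k) / (b : ℝ) ^ L) ⁻¹' N) := by
      ext x
      simp only [Set.mem_ofPred_eq, Set.mem_preimage, hN]
      have : x * ((b : ℝ) ^ n / (b : ℝ) ^ L) + (m - k) / (b : ℝ) ^ L =
        (m + (x * (b : ℝ) ^ n - k)) / (b : ℝ) ^ L := by ring
      rw [this]
    have hne : (b : ℝ) ^ n / (b : ℝ) ^ L ≠ 0 := div_ne_zero (pow_ne_zero _ hb0) (pow_ne_zero _ hb0)
    rw [h2, Real.volume_preimage_mul_right hne, measure_preimage_add_right, hG, mul_zero]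
  filter_upwards [h1] with x hx
  intro j
  induction j using Nat.strong_induction_on with
  | _ j ih =>
    have hpos := (orb_cell hb hQ j ih).2
    set s := orb b G Q w s0 x j with hs
    have h2 := hx s.m s.L s.n ⌊x * (b : ℝ) ^ s.n⌋ (by
      unfold bt Int.fract at hpos
      exact hpos)
    obtain ⟨p, hp, hp2⟩ := (h2.and_eventually (eventually_ge_atTop (Q s.L))).exists
    refine ⟨p, hp2, ?_⟩
    unfold bt Int.fract
    exact hp

lemma floor_bt_mem (hb : 2 ≤ b) (s : St) (x : ℝ) {q : ℕ} (hq : s.L ≤ q) :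
    s.m * (b : ℤ) ^ (q - s.L) ≤ ⌊bt b s x * (b : ℝ) ^ q⌋ ∧
      ⌊bt b s x * (b : ℝ) ^ q⌋ + 1 ≤ (s.m + 1) * (b : ℤ) ^ (q - s.L) := by
  rw [floor_bt hb s x hq]
  have h4 : 0 ≤ ⌊Int.fract (x * (b : ℝ) ^ s.n) * (b : ℝ) ^ (q - s.L)⌋ :=
    Int.floor_nonneg.2 (mul_nonneg (Int.fract_nonneg _) (pow_nonneg (bpos hb).le _))
  have h5 : ⌊Int.fract (x * (b : ℝ) ^ s.n) * (b : ℝ) ^ (q - s.L)⌋ < (b : ℤ) ^ (q - s.L) := by
    rw [Int.floor_lt]
    push_cast
    have := Int.fract_lt_one (x * (b : ℝ) ^ s.n)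
    have h6 := pow_pos (bpos hb) (q - s.L)
    nlinarith
  constructor
  · omega
  · rw [add_mul, one_mul]
    omega

/-- the output point -/
lemma exists_psi (hb : 2 ≤ b) (hQ : ∀ L, L < Q L) (hw : ∀ p, 1 ≤ w p) {s0 : St} {x : ℝ}
    (hx : Good b G Q w s0 x) : ∃ z : ℝ, ∀ j,
      ⌊z * (b : ℝ) ^ pp b G Q (orb b G Q w s0 x j) x⌋ =
        ⌊bt b (orb b G Q w s0 x j) x * (b : ℝ) ^ pp b G Q (orb b G Q w s0 x j) x⌋ := by
  have hb0 := bpos hb
  set s := orb b G Q w s0 x with hs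
  set p := fun j => pp b G Q (s j) x with hp
  set k := fun j => ⌊bt b (s j) x * (b : ℝ) ^ p j⌋ with hk
  have hsucc : ∀ j, s (j + 1) = ⟨k j * (b : ℤ) ^ w (p j), p j + w (p j), (s j).n + (p j - (s j).L)⟩ :=
    fun j => rfl
  have hLp : ∀ j, (s j).L ≤ p j := fun j => (hQ _).le.trans (pp_spec (hx j)).1
  -- the endpoints
  set lo : ℕ → ℝ := fun j => ((s j).m : ℝ) / (b : ℝ) ^ (s j).L with hlo
  set up : ℕ → ℝ := fun j => (((s j).m : ℝ) + 1) / (b : ℝ) ^ (s j).L with hup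
  have hlo1 : ∀ j, lo (j + 1) = (k j : ℝ) / (b : ℝ) ^ p j := by
    intro j
    simp only [hlo, hsucc]
    push_cast
    rw [pow_add]
    field_simp
  have hup1 : ∀ j, up (j + 1) = ((k j : ℝ) + ((b : ℝ) ^ w (p j))⁻¹) / (b : ℝ) ^ p j := by
    intro j
    simp only [hup, hsucc]
    push_cast
    rw [pow_add]
    field_simp
  have hinv : ∀ j, ((b : ℝ) ^ w (p j))⁻¹ ≤ 1 / 2 := by
    intro j
    have h1 : (2 : ℝ) ≤ b := by exact_mod_cast hb
    have h2 : (b : ℝ) ^ 1 ≤ (b : ℝ) ^ w (p j) := pow_le_pow_right₀ (by linarith) (hw _)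
    rw [pow_one] at h2
    rw [one_div]
    exact inv_anti₀ (by norm_num) (by linarith)
  have hnest : Antitone fun j => Set.Icc (lo j) (up j) := by
    refine antitone_nat_of_succ_le fun j => ?_
    have hm : (s j).m * (b : ℤ) ^ (p j - (s j).L) ≤ k j ∧
        k j + 1 ≤ ((s j).m + 1) * (b : ℤ) ^ (p j - (s j).L) := floor_bt_mem hb (s j) x (hLp j)
    have hpw : (b : ℝ) ^ p j = (b : ℝ) ^ (s j).L * (b : ℝ) ^ (p j - (s j).L) := by
      rw [← pow_add]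
      congr 1
      have := hLp j
      omega
    have hA : (((s j).m : ℝ)) * (b : ℝ) ^ (p j - (s j).L) ≤ (k j : ℝ) := by
      have := hm.1
      exact_mod_cast this
    have hB : (k j : ℝ) + 1 ≤ ((s j).m + 1) * (b : ℝ) ^ (p j - (s j).L) := by
      have := hm.2
      exact_mod_cast this
    refine Set.Icc_subset_Icc ?_ ?_
    · rw [hlo1, hlo]
      simp only
      rw [div_le_div_iff₀ (by positivity) (by positivity), hpw]
      have h3 := pow_pos hb0 (s j).L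
      nlinarith
    · rw [hup1, hup]
      simp only
      rw [div_le_div_iff₀ (by positivity) (by positivity), hpw]
      have h3 := pow_pos hb0 (s j).L
      have h4 := hinv j
      nlinarith
  have hle : ∀ j, lo j ≤ up j := by
    intro j
    simp only [hlo, hup]
    gcongr
    linarith
  refine ⟨⨆ j, lo j, fun j => ?_⟩
  have hz := Set.mem_iInter.1 (ciSup_mem_iInter_Icc_of_antitone_Icc hnest hle) (j + 1)
  rw [hlo1, hup1, Set.mem_Icc, div_le_iff₀ (by positivity), le_div_iff₀ (by positivity)] at hz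
  have h4 := hinv j
  show ⌊_ * (b : ℝ) ^ p j⌋ = k j
  rw [Int.floor_eq_iff]
  constructor
  · exact hz.1
  · linarith [hz.2]

end Pool.Agent.Q43.EX
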